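import Mathlib

/-!
# Characteristic functions: closure properties

`IsChf h` says that the real function `h` is the characteristic function of a probability measure
on `ℝ`. We prove closure under products, pointwise limits (continuous at `0`), and that
`exp (-∫ (1 - 1 / (1 + a² t²)) dM)` is a characteristic function for σ-finite `M`.
-/

set_option autoImplicit false

open MeasureTheory ProbabilityTheory Filter Topology
open scoped ENNReal NNReal

namespace Pool.Agent.Helper95.Tsallis

/-- `h` is the characteristic function of a probability measure. -/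
def IsChf (h : ℝ → ℝ) : Prop :=
  ∃ μ : Measure ℝ, IsProbabilityMeasure μ ∧ ∀ t, charFun μ t = (h t : ℂ)

lemma IsChf.one : IsChf (fun _ => 1) :=
  ⟨Measure.dirac 0, inferInstance, fun t => by simp⟩

lemma IsChf.mul {f g : ℝ → ℝ} (hf : IsChf f) (hg : IsChf g) : IsChf (fun t => f t * g t) := by
  obtain ⟨μ, hμ, h1⟩ := hf
  obtain ⟨ν, hν, h2⟩ := hg
  refine ⟨μ ∗ ν, inferInstance, fun t => ?_⟩
  rw [charFun_conv, h1, h2]
  push_cast
  rfl

lemma IsChf.pow {f : ℝ → ℝ} (hf : IsChf f) (n : ℕ) : IsChf (fun t => f t ^ n) := by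
  induction n with
  | zero => simpa using IsChf.one
  | succ n ih =>
    have := ih.mul hf
    simpa [pow_succ] using this

lemma IsChf.mix {f : ℝ → ℝ} (hf : IsChf f) {p : ℝ} (hp0 : 0 ≤ p) (hp1 : p ≤ 1) :
    IsChf (fun t => (1 - p) + p * f t) := by
  obtain ⟨μ, hμ, h1⟩ := hf
  refine ⟨ENNReal.ofReal (1 - p) • Measure.dirac 0 + ENNReal.ofReal p • μ, ⟨?_⟩, fun t => ?_⟩
  · simp only [Measure.coe_add, Measure.coe_smul, Pi.add_apply, Pi.smul_apply, measure_univ,
      smul_eq_mul, mul_one]
    rw [← ENNReal.ofReal_add (by linarith) hp0]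
    simp
  · have hint : ∀ (κ : Measure ℝ) [IsProbabilityMeasure κ],
        Integrable (fun x : ℝ => Complex.exp (t * x * Complex.I)) κ := by
      intro κ _
      refine (integrable_const (1 : ℝ)).mono' (by fun_prop) (Filter.Eventually.of_forall fun x => ?_)
      have : ((t : ℂ) * x * Complex.I) = ((t * x : ℝ) : ℂ) * Complex.I := by push_cast; ring
      rw [this, Complex.norm_exp_ofReal_mul_I]
    have e1 := h1 t
    rw [charFun_apply_real] at e1 ⊢
    rw [integral_add_measure, integral_smul_measure, integral_smul_measure, e1]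
    · rw [ENNReal.toReal_ofReal (by linarith), ENNReal.toReal_ofReal hp0]
      simp
    · exact (hint _).smul_measure ENNReal.ofReal_ne_top
    · exact (hint _).smul_measure ENNReal.ofReal_ne_top

/-- Lévy continuity: pointwise limits of characteristic functions, if continuous at `0`, are
characteristic functions. -/
lemma IsChf.of_tendsto {f : ℕ → ℝ → ℝ} {h : ℝ → ℝ} (hf : ∀ n, IsChf (f n))
    (hlim : ∀ t, Tendsto (fun n => f n t) atTop (𝓝 (h t))) (hcont : ContinuousAt h 0) :
    IsChf h := by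
  choose μ hμ hch using hf
  have hlim' : ∀ t, Tendsto (fun n => charFun (μ n) t) atTop (𝓝 ((h t : ℂ))) := by
    intro t
    simp_rw [hch]
    exact (Complex.continuous_ofReal.tendsto _).comp (hlim t)
  have hc : ContinuousAt (fun t => (h t : ℂ)) 0 := Complex.continuous_ofReal.continuousAt.comp hcont
  have htight := isTightMeasureSet_of_tendsto_charFun hc hlim'
  let P : ℕ → ProbabilityMeasure ℝ := fun n => ⟨μ n, hμ n⟩
  have hcpt : IsCompact (closure (Set.range P)) := by
    refine isCompact_closure_of_isTightMeasureSet ?_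
    convert htight using 1
    ext κ
    constructor
    · rintro ⟨ρ, ⟨n, rfl⟩, rfl⟩
      exact ⟨n, rfl⟩
    · rintro ⟨n, rfl⟩
      exact ⟨P n, ⟨n, rfl⟩, rfl⟩
  let U : Ultrafilter ℕ := Filter.hyperfilter ℕ
  have hU : (U : Filter ℕ) ≤ atTop := Nat.hyperfilter_le_atTop
  obtain ⟨μ', -, hμ'⟩ := hcpt.ultrafilter_le_nhds (U.map P)
    (by
      refine le_trans ?_ (Filter.monotone_principal subset_closure)
      rw [Filter.le_principal_iff]
      exact Filter.mem_map.2 (Filter.Eventually.of_forall fun n => ⟨n, rfl⟩))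
  refine ⟨μ', inferInstance, fun t => ?_⟩
  have h1 : Tendsto (fun n => charFun (P n : Measure ℝ) t) U (𝓝 (charFun (μ' : Measure ℝ) t)) := by
    have h2 : Tendsto P U (𝓝 μ') := hμ'
    rw [ProbabilityMeasure.tendsto_iff_forall_integral_rclike_tendsto ℂ] at h2
    simp_rw [charFun_eq_integral_innerProbChar]
    exact h2 (BoundedContinuousFunction.innerProbChar t)
  have h3 : Tendsto (fun n => charFun (P n : Measure ℝ) t) U (𝓝 ((h t : ℂ))) := (hlim' t).mono_left hU
  exact tendsto_nhds_unique h1 h3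

/-- compound Poisson -/
lemma IsChf.exp_sub {h : ℝ → ℝ} (hh : IsChf h) (hcont : ContinuousAt h 0) {m : ℝ} (hm : 0 ≤ m) :
    IsChf (fun t => Real.exp (-(m * (1 - h t)))) := by
  have key : ∀ n : ℕ, IsChf (fun t => (1 + (-(m * (1 - h t))) / ((n + ⌈m⌉₊ + 1 : ℕ) : ℝ)) ^
      (n + ⌈m⌉₊ + 1)) := by
    intro n
    have hN : (0 : ℝ) < ((n + ⌈m⌉₊ + 1 : ℕ) : ℝ) := by positivity
    have hmN : m ≤ ((n + ⌈m⌉₊ + 1 : ℕ) : ℝ) := by
      have := Nat.le_ceil m
      push_cast
      have : (0 : ℝ) ≤ n := by positivity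
      linarith
    have h1 := (hh.mix (p := m / ((n + ⌈m⌉₊ + 1 : ℕ) : ℝ)) (by positivity)
      ((div_le_one hN).2 hmN)).pow (n + ⌈m⌉₊ + 1)
    convert h1 using 3
    field_simp
    ring
  refine IsChf.of_tendsto key (fun t => ?_) ?_
  · have h2 := Real.tendsto_one_add_div_pow_exp (-(m * (1 - h t)))
    have h3 : Tendsto (fun n : ℕ => n + ⌈m⌉₊ + 1) atTop atTop :=
      tendsto_atTop_mono (fun n => by simp only [id]; omega) tendsto_id
    exact h2.comp h3
  · fun_prop


/-- The standard Laplace law, as a variance mixture of Gaussians, scaled by a random factor. -/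
lemma isChf_laplace_mix {Θ : Type*} [MeasurableSpace Θ] (M : Measure Θ) [IsProbabilityMeasure M]
    (a : Θ → ℝ) (ha : Measurable a) : IsChf (fun t => ∫ θ, 1 / (1 + (a θ * t) ^ 2) ∂M) := by
  have : IsProbabilityMeasure (expMeasure 1) := isProbabilityMeasure_expMeasure one_pos
  have hPDF : Measurable (exponentialPDF 1) := (measurable_exponentialPDFReal 1).ennreal_ofReal
  let N : Measure ℝ := gaussianReal 0 1
  let κ : Measure (Θ × ℝ) := M.prod (expMeasure 1)
  let F : (Θ × ℝ) × ℝ → ℝ := fun p => a p.1.1 * Real.sqrt (2 * p.1.2) * p.2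
  have hF : Measurable F := by fun_prop
  refine ⟨(κ.prod N).map F, Measure.isProbabilityMeasure_map hF.aemeasurable, fun t => ?_⟩
  have hbdd : ∀ (f : (Θ × ℝ) × ℝ → ℝ), Measurable f →
      Integrable (fun p => Complex.exp (f p * Complex.I)) (κ.prod N) := by
    intro f hf
    refine (integrable_const (1 : ℝ)).mono' ?_ (Filter.Eventually.of_forall fun x => ?_)
    · exact (Measurable.aestronglyMeasurable (by fun_prop))
    · rw [Complex.norm_exp_ofReal_mul_I]
  rw [charFun_apply_real, integral_map hF.aemeasurable (by fun_prop)]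
  have e1 : ∀ p : (Θ × ℝ) × ℝ, Complex.exp (t * (F p) * Complex.I) =
      Complex.exp (((t * (a p.1.1 * Real.sqrt (2 * p.1.2)) * p.2 : ℝ) : ℂ) * Complex.I) := by
    intro p
    simp only [F]
    push_cast
    ring_nf
  simp_rw [e1]
  rw [integral_prod _ (hbdd _ (by fun_prop))]
  have e2 : ∀ q : Θ × ℝ, (0 ≤ q.2) → ∫ z, Complex.exp (((t * (a q.1 * Real.sqrt (2 * q.2)) * z : ℝ) : ℂ) *
      Complex.I) ∂N = ((Real.exp (-((a q.1 * t) ^ 2 * q.2)) : ℝ) : ℂ) := by
    intro q hq
    have h1 := charFun_gaussianReal (μ := 0) (v := 1) (t * (a q.1 * Real.sqrt (2 * q.2)))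
    rw [charFun_apply_real] at h1
    have h2 : ∀ z : ℝ, Complex.exp (((t * (a q.1 * Real.sqrt (2 * q.2)) * z : ℝ) : ℂ) * Complex.I) =
        Complex.exp (((t * (a q.1 * Real.sqrt (2 * q.2)) : ℝ) : ℂ) * z * Complex.I) := by
      intro z; push_cast; ring_nf
    simp_rw [h2]
    rw [h1, Complex.ofReal_exp]
    congr 1
    push_cast
    have h3 : (Real.sqrt (2 * q.2) : ℂ) ^ 2 = 2 * q.2 := by
      rw [← Complex.ofReal_pow, Real.sq_sqrt (by positivity)]
      push_cast; ring
    calc _ = -((t : ℂ) ^ 2 * (a q.1) ^ 2 * (Real.sqrt (2 * q.2) : ℂ) ^ 2) / 2 := by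
          simp; ring
      _ = _ := by rw [h3]; ring
  have hae : ∀ᵐ q ∂κ, 0 ≤ q.2 := by
    have h1 : ∀ᵐ v ∂(expMeasure 1), 0 ≤ v := by
      have : (expMeasure 1) = volume.withDensity (exponentialPDF 1) := rfl
      rw [this, ae_withDensity_iff hPDF]
      refine Filter.Eventually.of_forall fun v hv => ?_
      by_contra hneg
      exact hv (exponentialPDF_of_neg (not_le.1 hneg))
    exact Measure.quasiMeasurePreserving_snd.ae h1
  rw [integral_congr_ae (hae.mono fun q hq => e2 q hq)]
  rw [integral_complex_ofReal]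
  congr 1
  have hint : Integrable (fun q : Θ × ℝ => Real.exp (-((a q.1 * t) ^ 2 * q.2))) κ := by
    refine (integrable_const (1 : ℝ)).mono' (by fun_prop) (hae.mono fun q hq => ?_)
    rw [Real.norm_eq_abs, abs_of_pos (Real.exp_pos _), Real.exp_le_one_iff]
    have : 0 ≤ (a q.1 * t) ^ 2 * q.2 := by positivity
    linarith
  rw [integral_prod _ hint]
  congr 1
  ext θ
  have h5 : (expMeasure 1) = volume.withDensity (exponentialPDF 1) := rfl
  set b : ℝ := (a θ * t) ^ 2 with hb
  have hb0 : 0 ≤ b := by positivity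
  rw [h5, integral_withDensity_eq_integral_toReal_smul hPDF
    (Filter.Eventually.of_forall fun x => by simp [exponentialPDF_eq])]
  have h6 : ∀ x : ℝ, (exponentialPDF 1 x).toReal • Real.exp (-(b * x)) =
      (Set.Ici (0 : ℝ)).indicator (fun x => Real.exp (-(1 + b) * x)) x := by
    intro x
    rw [exponentialPDF_eq, ENNReal.toReal_ofReal (by positivity), smul_eq_mul]
    by_cases hx : 0 ≤ x
    · rw [if_pos hx, Set.indicator_of_mem (Set.mem_Ici.2 hx), one_mul, one_mul, ← Real.exp_add]
      congr 1; ring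
    · rw [if_neg hx, zero_mul, Set.indicator_of_notMem (by simpa using hx)]
  rw [integral_congr_ae (Filter.Eventually.of_forall fun x => h6 x),
    integral_indicator measurableSet_Ici, integral_Ici_eq_integral_Ioi,
    integral_exp_mul_Ioi (by linarith)]
  simp only [mul_zero, Real.exp_zero]
  field_simp

lemma IsChf.continuous {h : ℝ → ℝ} (hh : IsChf h) : Continuous h := by
  obtain ⟨μ, hμ, h1⟩ := hh
  have : h = fun t => (charFun μ t).re := by
    funext t; rw [h1]; simp
  rw [this]
  exact Complex.continuous_re.comp (by fun_prop)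

lemma lapl_nonneg (x : ℝ) : 0 ≤ 1 - 1 / (1 + x ^ 2) := by
  have : 1 / (1 + x ^ 2) ≤ 1 := by
    rw [div_le_one (by positivity)]
    nlinarith [sq_nonneg x]
  linarith

lemma lapl_le (x : ℝ) : 1 - 1 / (1 + x ^ 2) ≤ 1 := by
  have : 0 ≤ 1 / (1 + x ^ 2) := by positivity
  linarith

lemma isChf_finite {Θ : Type*} [MeasurableSpace Θ] (M : Measure Θ) [IsFiniteMeasure M]
    (a : Θ → ℝ) (ha : Measurable a) :
    IsChf (fun t => Real.exp (-(∫ θ, (1 - 1 / (1 + (a θ * t) ^ 2)) ∂M))) := by
  by_cases h0 : M = 0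
  · subst h0
    simpa using IsChf.one
  · set m : ℝ := M.real Set.univ with hm
    have hmpos : 0 < m := by
      rw [hm, measureReal_def]
      exact ENNReal.toReal_pos (by simpa using h0) (measure_ne_top _ _)
    let M' : Measure Θ := (M Set.univ)⁻¹ • M
    have hM' : IsProbabilityMeasure M' := by
      refine ⟨?_⟩
      simp only [M', Measure.coe_smul, Pi.smul_apply, smul_eq_mul]
      exact ENNReal.inv_mul_cancel (by simpa using h0) (measure_ne_top _ _)
    have h1 := isChf_laplace_mix M' a ha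
    have h2 := h1.exp_sub h1.continuous.continuousAt hmpos.le
    convert h2 using 3 with t
    have hint : Integrable (fun θ => 1 / (1 + (a θ * t) ^ 2)) M := by
      refine (integrable_const (1 : ℝ)).mono' (Measurable.aestronglyMeasurable (by fun_prop))
        (Filter.Eventually.of_forall fun x => ?_)
      rw [Real.norm_eq_abs, abs_of_nonneg (by positivity), div_le_one (by positivity)]
      nlinarith [sq_nonneg (a x * t)]
    rw [integral_sub (integrable_const _) hint]
    simp only [M', integral_smul_measure, integral_const, smul_eq_mul, mul_one,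
      ENNReal.toReal_inv]
    rw [← measureReal_def, ← hm]
    have hm0 : m ≠ 0 := hmpos.ne'
    rw [mul_sub, mul_inv_cancel_left₀ hm0, mul_one]

lemma isChf_sigmaFinite {Θ : Type*} [MeasurableSpace Θ] (M : Measure Θ) [SigmaFinite M]
    (a : Θ → ℝ) (ha : Measurable a) (ψ : ℝ → ℝ)
    (hψ : ∀ t, ∫⁻ θ, ENNReal.ofReal (1 - 1 / (1 + (a θ * t) ^ 2)) ∂M = ENNReal.ofReal (ψ t))
    (hψ0 : ∀ t, 0 ≤ ψ t) (hc : ContinuousAt ψ 0) : IsChf (fun t => Real.exp (-ψ t)) := by
  have hfin : ∀ n, IsFiniteMeasure (M.restrict (spanningSets M n)) := fun n =>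
    ⟨by rw [Measure.restrict_apply_univ]; exact measure_spanningSets_lt_top M n⟩
  refine IsChf.of_tendsto (fun n => isChf_finite (M.restrict (spanningSets M n)) a ha)
    (fun t => ?_) (by fun_prop)
  have h1 : ∀ n, ∫ θ, (1 - 1 / (1 + (a θ * t) ^ 2)) ∂(M.restrict (spanningSets M n)) =
      (∫⁻ θ in spanningSets M n, ENNReal.ofReal (1 - 1 / (1 + (a θ * t) ^ 2)) ∂M).toReal := by
    intro n
    rw [integral_eq_lintegral_of_nonneg_ae]
    · exact Filter.Eventually.of_forall fun x => lapl_nonneg _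
    · exact (Measurable.aestronglyMeasurable (by fun_prop))
  simp_rw [h1]
  have h2 : Tendsto (fun n => ∫⁻ θ in spanningSets M n,
      ENNReal.ofReal (1 - 1 / (1 + (a θ * t) ^ 2)) ∂M) atTop (𝓝 (ENNReal.ofReal (ψ t))) := by
    rw [← hψ t, ← setLIntegral_univ (μ := M), ← iUnion_spanningSets M,
      setLIntegral_iUnion_of_directed]
    · exact tendsto_atTop_iSup (fun i j hij => lintegral_mono_set (monotone_spanningSets M hij))
    · exact (monotone_spanningSets M).directed_le
  have h3 := (ENNReal.tendsto_toReal ENNReal.ofReal_ne_top).comp h2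
  rw [ENNReal.toReal_ofReal (hψ0 t)] at h3
  exact (Real.continuous_exp.tendsto _).comp h3.neg

end Pool.Agent.Helper95.Tsallis
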