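import Mathlib

/-!
# The two-armed `1/2`-Tsallis FTRL map and the law `D̄`
-/

set_option autoImplicit false

open MeasureTheory

namespace Pool.Agent.Helper95.Tsallis

/-- The reward gap `c(x) = (1 - x)^{-1/2} - x^{-1/2}` at which the two-armed FTRL with the
`1/2`-Tsallis regularizer plays arm 1 with probability `x ∈ (0,1)`. -/
noncomputable def gap (x : ℝ) : ℝ := (1 - x) ^ (-(1 / 2) : ℝ) - x ^ (-(1 / 2) : ℝ)

/-- The law `D̄` of `c(U)`, where `U` is uniform on `(0,1)`. -/
noncomputable def Dbar : Measure ℝ := (volume.restrict (Set.Ioo (0 : ℝ) 1)).map gap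

end Pool.Agent.Helper95.Tsallis
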