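import Mathlib
import Pool.Agent.Helper95.Tsallis.ChfClass

/-!
# Powers of characteristic functions whose modulus decreases in the half plane
-/

set_option autoImplicit false

open MeasureTheory ProbabilityTheory Filter Topology Complex
open scoped ENNReal NNReal Real

namespace Pool.Agent.Helper95.Tsallis

/-- The open right half plane. -/
def RHP : Set ℂ := {z | 0 < z.re}

lemma isOpen_RHP : IsOpen RHP := isOpen_lt continuous_const continuous_re

/-- `G` is analytic in the right half plane, extends `g` on the positive reals, and its modulus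
decreases along horizontal lines. -/
structure HData (G : ℂ → ℂ) (g : ℝ → ℝ) (K : ℝ) : Prop where
  diff : DifferentiableOn ℂ G RHP
  real : ∀ x : ℝ, 0 < x → G x = g x
  anti : ∀ y x1 x2 : ℝ, 0 < x1 → x1 ≤ x2 → ‖G (x2 + y * I)‖ ≤ ‖G (x1 + y * I)‖
  even : ∀ t, g (-t) = g t
  zero : g 0 = 1
  lip : ∀ s t, |g t - g s| ≤ K * |t - s|

variable {G : ℂ → ℂ} {g : ℝ → ℝ} {K : ℝ}

lemma HData.continuous (h : HData G g K) : Continuous g := by
  have hK : 0 ≤ K := by
    have := (abs_nonneg _).trans (h.lip 0 1)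
    simpa using this
  have : LipschitzWith K.toNNReal g := LipschitzWith.of_dist_le_mul fun x y => by
    rw [Real.dist_eq, Real.dist_eq, Real.coe_toNNReal K hK]
    exact h.lip y x
  exact this.continuous

lemma HData.ne_zero (h : HData G g K) {z : ℂ} (hz : 0 < z.re) : G z ≠ 0 := by
  intro h0
  have hA : AnalyticOnNhd ℂ G RHP := h.diff.analyticOnNhd isOpen_RHP
  have hray : ∀ x : ℝ, z.re ≤ x → G (x + z.im * I) = 0 := by
    intro x hx
    have h1 := h.anti z.im z.re x hz hx
    rw [re_add_im z, h0, norm_zero] at h1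
    exact norm_le_zero_iff.1 h1
  have hfreq : ∃ᶠ w in 𝓝[≠] z, G w = 0 := by
    have ht : Tendsto (fun n : ℕ => z + ((1 / ((n : ℝ) + 1) : ℝ) : ℂ)) atTop (𝓝[≠] z) := by
      refine tendsto_nhdsWithin_iff.2 ⟨?_, Filter.Eventually.of_forall fun n => ?_⟩
      · have h1 : Tendsto (fun n : ℕ => ((1 / ((n : ℝ) + 1) : ℝ) : ℂ)) atTop (𝓝 ((0 : ℝ) : ℂ)) :=
          (continuous_ofReal.tendsto _).comp tendsto_one_div_add_atTop_nhds_zero_nat
        have h2 := h1.const_add z
        simpa using h2
      · simp only [Set.mem_compl_iff, Set.mem_singleton_iff, add_eq_left, ofReal_eq_zero]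
        positivity
    refine ht.frequently (Filter.Frequently.of_forall fun n => ?_)
    have h1 := hray (z.re + 1 / ((n : ℝ) + 1)) (by
      have : (0 : ℝ) < 1 / ((n : ℝ) + 1) := by positivity
      linarith)
    convert h1 using 2
    apply Complex.ext <;> simp
  have hzero := hA.eqOn_zero_of_preconnected_of_frequently_eq_zero
    (convex_halfSpace_re_gt 0).isPreconnected hz hfreq
  have hg0 : ∀ x : ℝ, 0 < x → g x = 0 := by
    intro x hx
    have h1 := h.real x hx
    have h2 : G x = 0 := hzero (show (x : ℂ) ∈ RHP from by simpa [RHP] using hx)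
    rw [h2] at h1
    exact_mod_cast h1.symm
  have h2 : Tendsto g (𝓝[>] 0) (𝓝 (g 0)) := h.continuous.continuousAt.tendsto.mono_left
    nhdsWithin_le_nhds
  have h3 : Tendsto g (𝓝[>] 0) (𝓝 0) := by
    refine (tendsto_const_nhds).congr' ?_
    filter_upwards [self_mem_nhdsWithin] with x hx
    exact (hg0 x hx).symm
  have := tendsto_nhds_unique h2 h3
  rw [h.zero] at this
  exact one_ne_zero this

/-- minus the logarithmic derivative -/
noncomputable def LL (G : ℂ → ℂ) (z : ℂ) : ℂ := -(deriv G z / G z)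

lemma HData.hasDerivAt (h : HData G g K) {z : ℂ} (hz : 0 < z.re) :
    HasDerivAt G (deriv G z) z :=
  (h.diff.differentiableAt (isOpen_RHP.mem_nhds hz)).hasDerivAt

lemma HData.LL_diff (h : HData G g K) : DifferentiableOn ℂ (LL G) RHP := by
  refine DifferentiableOn.neg (DifferentiableOn.div ?_ h.diff fun z hz => h.ne_zero hz)
  exact h.diff.deriv isOpen_RHP

lemma HData.re_LL_nonneg (h : HData G g K) {z : ℂ} (hz : 0 < z.re) : 0 ≤ (LL G z).re := by
  set y := z.im with hy
  have hzz : ((z.re : ℂ) + y * I) = z := re_add_im z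
  have hd : HasDerivAt (fun x : ℝ => G (x + y * I)) (deriv G z) z.re := by
    have h1 := h.hasDerivAt hz
    have h2 : HasDerivAt (fun x : ℝ => ((x : ℂ) + y * I)) 1 z.re :=
      (ofRealCLM.hasDerivAt (x := z.re)).add_const _
    have h3 : HasDerivAt (fun x : ℝ => G (x + y * I)) (deriv G z * 1) z.re := by
      refine HasDerivAt.comp z.re ?_ h2
      rw [hzz]
      exact h1
    rwa [mul_one] at h3
  have hn := hd.norm_sq
  have hanti : AntitoneOn (fun x : ℝ => ‖G (x + y * I)‖ ^ 2) (Set.Ioi 0) := by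
    intro x1 hx1 x2 _ hx
    have := h.anti y x1 x2 hx1 hx
    simp only
    gcongr
  have h4 := hanti.derivWithin_nonpos (x := z.re)
  rw [derivWithin_of_isOpen isOpen_Ioi hz, hn.deriv] at h4
  have h5 : (LL G z).re = - (inner ℝ (G z) (deriv G z)) / ‖G z‖ ^ 2 := by
    unfold LL
    rw [neg_re, div_re, ← Complex.normSq_eq_norm_sq, Complex.inner]
    simp only [mul_re, conj_re, conj_im]
    ring
  rw [h5]
  have h6 : inner ℝ (G z) (deriv G z) ≤ 0 := by
    rw [hzz] at h4
    linarith
  exact div_nonneg (by linarith) (by positivity)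

lemma HData.g_ne_zero (h : HData G g K) {x : ℝ} (hx : 0 < x) : g x ≠ 0 := by
  intro h0
  have h1 := h.real x hx
  rw [h0] at h1
  exact h.ne_zero (z := x) (by simpa using hx) (by simpa using h1)

lemma HData.g_pos (h : HData G g K) {x : ℝ} (hx : 0 ≤ x) : 0 < g x := by
  by_contra hneg
  push Not at hneg
  have h1 : (0 : ℝ) ∈ g '' Set.Icc 0 x := by
    apply intermediate_value_Icc' hx h.continuous.continuousOn
    exact ⟨hneg, by rw [h.zero]; norm_num⟩
  obtain ⟨s, hs, hs0⟩ := h1
  rcases hs.1.eq_or_lt with h2 | h2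
  · rw [← h2, h.zero] at hs0
    exact one_ne_zero hs0
  · exact h.g_ne_zero h2 hs0

lemma HData.g_abs (h : HData G g K) (t : ℝ) : g t = g |t| := by
  rcases abs_choice t with h1 | h1 <;> rw [h1]
  rw [h.even]

lemma HData.g_pos' (h : HData G g K) (t : ℝ) : 0 < g t := by
  rw [h.g_abs]; exact h.g_pos (abs_nonneg t)

lemma HData.g_anti (h : HData G g K) {x1 x2 : ℝ} (hx1 : 0 < x1) (hx : x1 ≤ x2) :
    g x2 ≤ g x1 := by
  have h1 := h.anti 0 x1 x2 hx1 hx
  simp only [ofReal_zero, zero_mul, add_zero] at h1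
  rw [h.real x1 hx1, h.real x2 (hx1.trans_le hx)] at h1
  simp only [norm_real, Real.norm_eq_abs] at h1
  rwa [abs_of_pos (h.g_pos' _), abs_of_pos (h.g_pos' _)] at h1

/-- real logarithmic derivative on the half line -/
lemma HData.hasDerivAt_log (h : HData G g K) {x : ℝ} (hx : 0 < x) :
    HasDerivAt (fun t => -Real.log (g t)) (LL G x).re x := by
  have hz : 0 < ((x : ℂ)).re := by simpa using hx
  have h1 : HasDerivAt (fun t : ℝ => (G t).re) (deriv G x).re x :=
    (h.hasDerivAt hz).real_of_complex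
  have h2 : HasDerivAt g (deriv G x).re x := by
    refine h1.congr_of_eventuallyEq ?_
    filter_upwards [lt_mem_nhds (show (0 : ℝ) < x from hx)] with t ht
    rw [h.real t ht, ofReal_re]
  have h3 := (h2.log (h.g_pos' x).ne').neg
  have h4 : (LL G x).re = -((deriv G x).re / g x) := by
    unfold LL
    rw [h.real x hx, neg_re, div_ofReal_re]
  rw [h4]
  exact h3

lemma HData.K_nonneg (h : HData G g K) : 0 ≤ K := by
  have := (abs_nonneg _).trans (h.lip 0 1)
  simpa using this

lemma HData.re_LL_le (h : HData G g K) {x T : ℝ} (hx : 0 < x) (hxT : x ≤ T) :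
    (LL G x).re ≤ K / g T := by
  have hz : 0 < ((x : ℂ)).re := by simpa using hx
  have h1 : HasDerivAt (fun t : ℝ => (G t).re) (deriv G x).re x :=
    (h.hasDerivAt hz).real_of_complex
  have h2 : HasDerivAt g (deriv G x).re x := by
    refine h1.congr_of_eventuallyEq ?_
    filter_upwards [lt_mem_nhds (show (0 : ℝ) < x from hx)] with t ht
    rw [h.real t ht, ofReal_re]
  have h3 : |(deriv G x).re| ≤ K := by
    have hlip : LipschitzWith K.toNNReal g := LipschitzWith.of_dist_le_mul fun x y => by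
      rw [Real.dist_eq, Real.dist_eq, Real.coe_toNNReal K h.K_nonneg]
      exact h.lip y x
    have := norm_deriv_le_of_lipschitz (x₀ := x) hlip
    rwa [h2.deriv, Real.norm_eq_abs, Real.coe_toNNReal K h.K_nonneg] at this
  unfold LL
  rw [h.real x hx, neg_re, div_ofReal_re]
  have hg := h.g_pos' x
  have hT := h.g_pos' T
  calc -((deriv G x).re / g x) ≤ K / g x := by
        rw [← neg_div]
        gcongr
        exact (neg_le_abs _).trans h3
    _ ≤ K / g T := by
        gcongr
        · exact h.K_nonneg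
        · exact h.g_anti hx hxT

lemma HData.log_eq_integral (h : HData G g K) {t : ℝ} (ht : 0 ≤ t) :
    ∫ s in (0 : ℝ)..t, (LL G s).re = -Real.log (g t) := by
  have h1 := intervalIntegral.integral_eq_sub_of_hasDerivAt_of_le (f := fun t => -Real.log (g t))
    (f' := fun s => (LL G s).re) ht ?_ ?_ ?_
  · rw [h1, h.zero]; simp
  · refine ContinuousOn.neg (ContinuousOn.log h.continuous.continuousOn fun x _ => (h.g_pos' x).ne')
  · intro x hx
    exact h.hasDerivAt_log hx.1
  · rw [intervalIntegrable_iff, Set.uIoc_of_le ht]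
    have hcont : ContinuousOn (fun x : ℝ => (LL G x).re) (Set.Ioc 0 t) := by
      refine continuous_re.comp_continuousOn (h.LL_diff.continuousOn.comp
        continuous_ofReal.continuousOn fun x hx => ?_)
      simpa [RHP] using hx.1
    have hconst : IntegrableOn (fun _ : ℝ => K / g t) (Set.Ioc 0 t) :=
      integrableOn_const (measure_Ioc_lt_top (a := (0 : ℝ)) (b := t)).ne
    refine Integrable.mono' hconst (hcont.aestronglyMeasurable measurableSet_Ioc) ?_
    refine (ae_restrict_iff' measurableSet_Ioc).2 (Filter.Eventually.of_forall fun x hx => ?_)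
    rw [Real.norm_eq_abs, abs_of_nonneg (h.re_LL_nonneg (by simpa using hx.1))]
    exact h.re_LL_le hx.1 hx.2

/-- Cayley map from the disc to the right half plane -/
noncomputable def phi (ζ : ℂ) : ℂ := (1 + ζ) / (1 - ζ)

lemma one_sub_ne {ζ : ℂ} (h : ‖ζ‖ < 1) : 1 - ζ ≠ 0 := by
  intro h0
  have : ζ = 1 := by linear_combination -h0
  rw [this] at h
  simp at h

lemma phi_re_pos {ζ : ℂ} (h : ‖ζ‖ < 1) : 0 < (phi ζ).re := by
  unfold phi
  have h0 := one_sub_ne h
  have h1 : 0 < normSq (1 - ζ) := normSq_pos.2 h0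
  have h2 : normSq ζ < 1 := by
    rw [normSq_eq_norm_sq]
    nlinarith [norm_nonneg ζ]
  have h3 : ((1 + ζ) / (1 - ζ)).re = (1 - normSq ζ) / normSq (1 - ζ) := by
    rw [div_re]
    simp only [add_re, one_re, sub_re, add_im, one_im, sub_im, normSq_apply ζ]
    ring
  rw [h3]
  exact div_pos (by linarith) h1

lemma phi_diff : DifferentiableOn ℂ phi (Metric.ball 0 1) := by
  unfold phi
  refine DifferentiableOn.div (by fun_prop) (by fun_prop) fun ζ hζ => ?_
  exact one_sub_ne (by simpa using hζ)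

/-- the real parameter of the disc -/
noncomputable def zet (s : ℝ) : ℝ := (s - 1) / (s + 1)

lemma zet_abs_lt {s : ℝ} (hs : 0 < s) : |zet s| < 1 := by
  unfold zet
  rw [abs_div, div_lt_one (by positivity), abs_of_pos (by positivity : 0 < s + 1), abs_lt]
  constructor <;> linarith

/-- `phi (r * zet s)` -/
noncomputable def phir (r s : ℝ) : ℝ := (1 + r * zet s) / (1 - r * zet s)

lemma phir_eq (r s : ℝ) : phi ((r * zet s : ℝ) : ℂ) = (phir r s : ℂ) := by
  unfold phi phir
  push_cast
  rfl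

lemma phir_pos {r s : ℝ} (hr0 : 0 ≤ r) (hr1 : r ≤ 1) (hs : 0 < s) : 0 < phir r s := by
  have h1 := abs_lt.1 (zet_abs_lt hs)
  unfold phir
  apply div_pos <;> nlinarith

lemma phir_le {r s T : ℝ} (hr0 : 0 ≤ r) (hr1 : r ≤ 1) (hs : 0 < s) (hsT : s ≤ T) (hT : 1 ≤ T) :
    phir r s ≤ T := by
  have h1 := abs_lt.1 (zet_abs_lt hs)
  unfold phir
  rw [div_le_iff₀ (by nlinarith)]
  have h2 : zet s ≤ (T - 1) / (T + 1) := by
    unfold zet
    rw [div_le_div_iff₀ (by positivity) (by positivity)]
    nlinarith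
  have h3 : r * zet s ≤ (T - 1) / (T + 1) := by
    rcases le_or_gt (zet s) 0 with h4 | h4
    · have : r * zet s ≤ 0 := mul_nonpos_of_nonneg_of_nonpos hr0 h4
      have : 0 ≤ (T - 1) / (T + 1) := div_nonneg (by linarith) (by linarith)
      linarith
    · nlinarith
  rw [le_div_iff₀ (by positivity)] at h3
  nlinarith

/-- Regularised real part of the log derivative -/
noncomputable def Lr (G : ℂ → ℂ) (r s : ℝ) : ℝ := (LL G (phir r s)).re

/-- boundary weight -/
noncomputable def wr (G : ℂ → ℂ) (r θ : ℝ) : ℝ := (LL G (phi (circleMap 0 r θ))).re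

lemma circle_norm {r : ℝ} (hr0 : 0 ≤ r) (θ : ℝ) : ‖circleMap 0 r θ‖ = r := by
  simp [circleMap, abs_of_nonneg hr0]

lemma HData.wr_nonneg (h : HData G g K) {r : ℝ} (hr0 : 0 ≤ r) (hr1 : r < 1) (θ : ℝ) :
    0 ≤ wr G r θ := by
  refine h.re_LL_nonneg (phi_re_pos ?_)
  rw [circle_norm hr0]; exact hr1

lemma HData.comp_diff (h : HData G g K) : DifferentiableOn ℂ (fun ζ => LL G (phi ζ))
    (Metric.ball 0 1) := by
  refine h.LL_diff.comp phi_diff fun ζ hζ => ?_
  exact phi_re_pos (by simpa using hζ)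

lemma HData.wr_continuous (h : HData G g K) {r : ℝ} (hr0 : 0 ≤ r) (hr1 : r < 1) :
    Continuous (wr G r) := by
  unfold wr
  refine continuous_re.comp ?_
  refine h.comp_diff.continuousOn.comp_continuous (continuous_circleMap 0 r) fun θ => ?_
  rw [mem_ball_zero_iff, circle_norm hr0]
  exact hr1

/-- kernel in the time variable -/
noncomputable def ker (s θ : ℝ) : ℝ := 2 * s / (s ^ 2 * (1 - Real.cos θ) + (1 + Real.cos θ))

lemma ker_den_pos {s : ℝ} (hs : 0 < s) (θ : ℝ) :
    0 < s ^ 2 * (1 - Real.cos θ) + (1 + Real.cos θ) := by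
  have h1 := Real.cos_le_one θ
  have h2 := Real.neg_one_le_cos θ
  have h3 : 0 < s ^ 2 := by positivity
  rcases h1.lt_or_eq with h4 | h4
  · have : 0 < s ^ 2 * (1 - Real.cos θ) := mul_pos h3 (by linarith)
    linarith
  · rw [h4]; norm_num

lemma poisson_eq {r s : ℝ} (hr0 : 0 < r) (hs : 0 < s) (θ : ℝ) :
    poissonKernel 0 ((r * zet s : ℝ) : ℂ) (circleMap 0 r θ) = ker s θ := by
  have hden := ker_den_pos hs θ
  rw [poissonKernel_def]
  simp only [sub_zero]
  rw [circle_norm hr0.le, norm_real, Real.norm_eq_abs, sq_abs]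
  have h1 : ‖circleMap 0 r θ - ((r * zet s : ℝ) : ℂ)‖ ^ 2 =
      r ^ 2 * (1 - 2 * zet s * Real.cos θ + zet s ^ 2) := by
    rw [← normSq_eq_norm_sq, normSq_apply]
    simp only [circleMap, zero_add, sub_re, sub_im, mul_re, mul_im, ofReal_re, ofReal_im,
      exp_ofReal_mul_I_re, exp_ofReal_mul_I_im]
    nlinarith [Real.sin_sq_add_cos_sq θ]
  rw [h1]
  unfold zet ker
  have h2 : 1 - 2 * ((s - 1) / (s + 1)) * Real.cos θ + ((s - 1) / (s + 1)) ^ 2 =
      2 * (s ^ 2 * (1 - Real.cos θ) + (1 + Real.cos θ)) / (s + 1) ^ 2 := by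
    field_simp
    ring
  rw [h2]
  have h3 : r ^ 2 - (r * ((s - 1) / (s + 1))) ^ 2 = r ^ 2 * (4 * s / (s + 1) ^ 2) := by
    field_simp
    ring
  rw [h3]
  field_simp
  norm_num

lemma HData.Lr_eq (h : HData G g K) {r s : ℝ} (hr0 : 0 < r) (hr1 : r < 1) (hs : 0 < s) :
    Lr G r s = (2 * π)⁻¹ * ∫ θ in (0 : ℝ)..2 * π, ker s θ * wr G r θ := by
  have hsub : Metric.closedBall (0 : ℂ) r ⊆ Metric.ball 0 1 := Metric.closedBall_subset_ball hr1
  have hD : DiffContOnCl ℂ (fun ζ => LL G (phi ζ)) (Metric.ball 0 r) := by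
    refine DifferentiableOn.diffContOnCl ?_
    refine h.comp_diff.mono ?_
    exact Metric.closure_ball_subset_closedBall.trans hsub
  have hw : ((r * zet s : ℝ) : ℂ) ∈ Metric.ball (0 : ℂ) r := by
    rw [mem_ball_zero_iff, norm_real, Real.norm_eq_abs, abs_mul, abs_of_pos hr0]
    have := zet_abs_lt hs
    nlinarith
  have h1 := hD.circleAverage_poissonKernel_smul hw
  unfold Lr
  rw [← phir_eq, ← h1, Real.circleAverage_def]
  have h2 : ∀ θ : ℝ, (poissonKernel 0 ((r * zet s : ℝ) : ℂ) • fun ζ => LL G (phi ζ))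
      (circleMap 0 r θ) = (ker s θ : ℂ) * LL G (phi (circleMap 0 r θ)) := by
    intro θ
    rw [Pi.smul_apply', poisson_eq hr0 hs θ]
    simp
  simp_rw [h2]
  rw [smul_re, smul_eq_mul]
  congr 1
  have hker : Continuous (fun θ => ker s θ) := by
    unfold ker
    exact Continuous.div (by fun_prop) (by fun_prop) fun θ => (ker_den_pos hs θ).ne'
  have hcont : Continuous (fun θ : ℝ => (ker s θ : ℂ) * LL G (phi (circleMap 0 r θ))) := by
    refine (continuous_ofReal.comp hker).mul ?_
    refine h.comp_diff.continuousOn.comp_continuous (continuous_circleMap 0 r) fun θ => ?_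
    rw [mem_ball_zero_iff, circle_norm hr0.le]
    exact hr1
  have h3 := reCLM.intervalIntegral_comp_comm (μ := volume) (hcont.intervalIntegrable 0 (2 * π))
  simp only [reCLM_apply] at h3
  rw [← h3]
  refine intervalIntegral.integral_congr fun θ _ => ?_
  simp [wr]

lemma HData.Lr_bound (h : HData G g K) {r s T : ℝ} (hr0 : 0 ≤ r) (hr1 : r ≤ 1) (hs : 0 < s)
    (hsT : s ≤ T) (hT : 1 ≤ T) : 0 ≤ Lr G r s ∧ Lr G r s ≤ K / g T :=
  ⟨h.re_LL_nonneg (by simpa using phir_pos hr0 hr1 hs),
    h.re_LL_le (phir_pos hr0 hr1 hs) (phir_le hr0 hr1 hs hsT hT)⟩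

lemma HData.Lr_contOn (h : HData G g K) {r : ℝ} (hr0 : 0 ≤ r) (hr1 : r ≤ 1) :
    ContinuousOn (Lr G r) (Set.Ioi 0) := by
  unfold Lr
  refine continuous_re.comp_continuousOn (h.LL_diff.continuousOn.comp ?_ fun s hs => ?_)
  · refine continuous_ofReal.comp_continuousOn ?_
    unfold phir zet
    refine ContinuousOn.div ?_ ?_ fun s hs => ?_
    · refine continuousOn_const.add (continuousOn_const.mul (ContinuousOn.div (by fun_prop)
        (by fun_prop) fun s hs => ?_))
      have : (0 : ℝ) < s := hs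
      positivity
    · refine continuousOn_const.sub (continuousOn_const.mul (ContinuousOn.div (by fun_prop)
        (by fun_prop) fun s hs => ?_))
      have : (0 : ℝ) < s := hs
      positivity
    · have h1 := abs_lt.1 (zet_abs_lt (show (0 : ℝ) < s from hs))
      unfold zet at h1
      nlinarith
  · exact show 0 < ((phir r s : ℝ) : ℂ).re by simpa using phir_pos hr0 hr1 hs

/-- the regularised exponent -/
noncomputable def psir (G : ℂ → ℂ) (c r t : ℝ) : ℝ := c * ∫ s in (0 : ℝ)..|t|, Lr G r s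

lemma HData.Lr_intervalIntegrable (h : HData G g K) {r T : ℝ} (hr0 : 0 ≤ r) (hr1 : r ≤ 1)
    (hT : 0 ≤ T) : IntervalIntegrable (Lr G r) volume 0 T := by
  rw [intervalIntegrable_iff, Set.uIoc_of_le hT]
  have hconst : IntegrableOn (fun _ : ℝ => K / g (max 1 T)) (Set.Ioc 0 T) :=
    integrableOn_const (measure_Ioc_lt_top (a := (0 : ℝ)) (b := T)).ne
  refine Integrable.mono' hconst (((h.Lr_contOn hr0 hr1).mono fun x hx => hx.1).aestronglyMeasurable
    measurableSet_Ioc) ?_
  refine (ae_restrict_iff' measurableSet_Ioc).2 (Filter.Eventually.of_forall fun x hx => ?_)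
  have h1 := h.Lr_bound (T := max 1 T) hr0 hr1 hx.1 (hx.2.trans (le_max_right _ _))
    (le_max_left _ _)
  rw [Real.norm_eq_abs, abs_of_nonneg h1.1]
  exact h1.2

lemma HData.int_Lr_nonneg (h : HData G g K) {r T : ℝ} (hr0 : 0 ≤ r) (hr1 : r ≤ 1)
    (hT : 0 ≤ T) : 0 ≤ ∫ s in (0 : ℝ)..T, Lr G r s := by
  rw [intervalIntegral.integral_of_le hT]
  refine setIntegral_nonneg measurableSet_Ioc fun s hs => ?_
  exact (h.Lr_bound (T := max 1 T) hr0 hr1 hs.1 (hs.2.trans (le_max_right _ _))
    (le_max_left _ _)).1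

lemma HData.psir_nonneg (h : HData G g K) {c r : ℝ} (hc : 0 ≤ c) (hr0 : 0 ≤ r) (hr1 : r ≤ 1)
    (t : ℝ) : 0 ≤ psir G c r t :=
  mul_nonneg hc (h.int_Lr_nonneg hr0 hr1 (abs_nonneg t))

lemma HData.psir_continuousAt (h : HData G g K) {c r : ℝ} (hc : 0 ≤ c) (hr0 : 0 ≤ r)
    (hr1 : r ≤ 1) : ContinuousAt (psir G c r) 0 := by
  have h0 : psir G c r 0 = 0 := by simp [psir]
  have hb : ∀ t : ℝ, |t| ≤ 1 → |psir G c r t| ≤ c * (K / g 1) * |t| := by
    intro t ht
    unfold psir
    rw [abs_mul, abs_of_nonneg hc, mul_assoc]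
    refine mul_le_mul_of_nonneg_left ?_ hc
    have h1 := intervalIntegral.norm_integral_le_of_norm_le_const (a := 0) (b := |t|)
      (f := Lr G r) (C := K / g 1) (fun s hs => by
        rw [Set.uIoc_of_le (abs_nonneg t)] at hs
        have h2 := h.Lr_bound (T := 1) hr0 hr1 hs.1 (hs.2.trans ht) le_rfl
        rw [Real.norm_eq_abs, abs_of_nonneg h2.1]
        exact h2.2)
    rw [sub_zero, abs_abs] at h1
    exact h1
  rw [ContinuousAt, h0]
  refine squeeze_zero_norm' (a := fun t => c * (K / g 1) * |t|) ?_ ?_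
  · filter_upwards [Metric.ball_mem_nhds (0 : ℝ) one_pos] with t ht
    rw [Real.norm_eq_abs]
    refine hb t ?_
    rw [Metric.mem_ball, dist_zero_right, Real.norm_eq_abs] at ht
    exact ht.le
  · have : Tendsto (fun t : ℝ => c * (K / g 1) * |t|) (𝓝 0) (𝓝 (c * (K / g 1) * |0|)) :=
      (continuous_const.mul continuous_abs).tendsto 0
    simpa using this

/-- scale function of the Laplace mixture -/
noncomputable def scl (p : ℝ × ℝ) : ℝ := p.1 * Real.sqrt ((1 - Real.cos p.2) / (1 + Real.cos p.2))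

/-- weight of the Laplace mixture -/
noncomputable def wgt (G : ℂ → ℂ) (c r : ℝ) (p : ℝ × ℝ) : ℝ :=
  c * (2 * π)⁻¹ * (2 / (p.1 * (1 - Real.cos p.2))) * wr G r p.2

/-- base measure -/
noncomputable def baseM : Measure (ℝ × ℝ) :=
  (volume.restrict (Set.Ioc (0 : ℝ) 1)).prod (volume.restrict (Set.Ioc (0 : ℝ) (2 * π)))

lemma ae_cos : ∀ᵐ θ : ℝ, 1 - Real.cos θ ≠ 0 ∧ 1 + Real.cos θ ≠ 0 := by
  have h1 : (Set.range (fun n : ℤ => (n : ℝ) * π)).Countable := Set.countable_range _
  have h2 : ∀ᵐ θ : ℝ, θ ∉ Set.range (fun n : ℤ => (n : ℝ) * π) :=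
    measure_eq_zero_iff_ae_notMem.1 (h1.measure_zero volume)
  filter_upwards [h2] with θ hθ
  have h3 : Real.sin θ ≠ 0 := by
    intro h0
    rw [Real.sin_eq_zero_iff] at h0
    exact hθ h0
  have h4 := Real.sin_sq_add_cos_sq θ
  constructor
  · intro h0
    apply h3
    have : Real.cos θ = 1 := by linarith
    rw [this] at h4
    nlinarith
  · intro h0
    apply h3
    have : Real.cos θ = -1 := by linarith
    rw [this] at h4
    nlinarith

lemma ptwise (G : ℂ → ℂ) (c r t : ℝ) {s θ : ℝ} (hs : 0 < s)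
    (hA : 1 - Real.cos θ ≠ 0) (hB : 1 + Real.cos θ ≠ 0) :
    wgt G c r (s, θ) * (1 - 1 / (1 + (scl (s, θ) * t) ^ 2)) =
      c * |t| * ((2 * π)⁻¹ * (ker (s * |t|) θ * wr G r θ)) := by
  have hA' : 0 < 1 - Real.cos θ := lt_of_le_of_ne (by linarith [Real.cos_le_one θ]) (Ne.symm hA)
  have hB' : 0 < 1 + Real.cos θ := lt_of_le_of_ne (by linarith [Real.neg_one_le_cos θ]) (Ne.symm hB)
  unfold wgt scl ker
  simp only
  rw [mul_pow, mul_pow, Real.sq_sqrt (by positivity), mul_pow, sq_abs]
  set A := 1 - Real.cos θ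
  set B := 1 + Real.cos θ
  have h1 : (0 : ℝ) < s ^ 2 * t ^ 2 * A + B := by positivity
  have h2 : 1 - 1 / (1 + s ^ 2 * (A / B) * t ^ 2) = s ^ 2 * t ^ 2 * A / (s ^ 2 * t ^ 2 * A + B) := by
    field_simp
    ring
  rw [h2]
  have h3 : t ^ 2 = |t| * |t| := by rw [← sq, sq_abs]
  field_simp
  rw [h3]
  ring

lemma HData.wgt_measurable (h : HData G g K) {c r : ℝ} (hr0 : 0 ≤ r) (hr1 : r < 1) :
    Measurable (wgt G c r) := by
  unfold wgt
  have := (h.wr_continuous hr0 hr1).measurable
  fun_prop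

lemma scl_measurable : Measurable scl := by
  unfold scl
  fun_prop

lemma HData.lintegral_eq (h : HData G g K) {c r : ℝ} (hc : 0 ≤ c) (hr0 : 0 < r) (hr1 : r < 1)
    (t : ℝ) : ∫⁻ p, ENNReal.ofReal (1 - 1 / (1 + (scl p * t) ^ 2))
      ∂(baseM.withDensity fun p => ENNReal.ofReal (wgt G c r p)) =
      ENNReal.ofReal (psir G c r t) := by
  have hwm := h.wgt_measurable (c := c) hr0.le hr1
  have hsm := scl_measurable
  have hm1 : Measurable fun p : ℝ × ℝ => ENNReal.ofReal (1 - 1 / (1 + (scl p * t) ^ 2)) := by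
    fun_prop
  rw [lintegral_withDensity_eq_lintegral_mul _ hwm.ennreal_ofReal hm1]
  unfold baseM
  rw [lintegral_prod]
  swap
  · exact (hwm.ennreal_ofReal.mul hm1).aemeasurable
  simp only [Pi.mul_apply]
  rcases eq_or_ne t 0 with rfl | ht
  · simp [psir]
  have ht' : 0 < |t| := abs_pos.2 ht
  -- inner integral
  have hin : ∀ s ∈ Set.Ioc (0 : ℝ) 1,
      ∫⁻ θ in Set.Ioc (0 : ℝ) (2 * π), ENNReal.ofReal (wgt G c r (s, θ)) *
        ENNReal.ofReal (1 - 1 / (1 + (scl (s, θ) * t) ^ 2)) =
      ENNReal.ofReal (c * |t| * Lr G r (s * |t|)) := by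
    intro s hs
    have hst : 0 < s * |t| := mul_pos hs.1 ht'
    have e1 : ∀ᵐ θ ∂(volume.restrict (Set.Ioc (0 : ℝ) (2 * π))),
        ENNReal.ofReal (wgt G c r (s, θ)) *
        ENNReal.ofReal (1 - 1 / (1 + (scl (s, θ) * t) ^ 2)) =
        ENNReal.ofReal (c * |t| * ((2 * π)⁻¹ * (ker (s * |t|) θ * wr G r θ))) := by
      refine ae_restrict_of_ae (ae_cos.mono fun θ hθ => ?_)
      rw [← ptwise G c r t hs.1 hθ.1 hθ.2, ← ENNReal.ofReal_mul' (lapl_nonneg _)]
    rw [lintegral_congr_ae e1]
    have hker : Continuous (fun θ => ker (s * |t|) θ) := by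
      unfold ker
      exact Continuous.div (by fun_prop) (by fun_prop) fun θ => (ker_den_pos hst θ).ne'
    have hcont : Continuous fun θ => c * |t| * ((2 * π)⁻¹ * (ker (s * |t|) θ * wr G r θ)) := by
      have := h.wr_continuous hr0.le hr1
      fun_prop
    rw [← ofReal_integral_eq_lintegral_ofReal]
    · congr 1
      rw [integral_const_mul, integral_const_mul, h.Lr_eq hr0 hr1 hst,
        intervalIntegral.integral_of_le (by positivity)]
    · exact (hcont.integrableOn_Ioc)
    · refine Filter.Eventually.of_forall fun θ => ?_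
      have h1 : 0 ≤ ker (s * |t|) θ := by
        unfold ker
        exact div_nonneg (by positivity) (ker_den_pos hst θ).le
      have h2 := h.wr_nonneg hr0.le hr1 θ
      positivity
  rw [setLIntegral_congr_fun measurableSet_Ioc hin]
  have hcomp : ∀ s, c * |t| * Lr G r (s * |t|) = c * |t| * Lr G r (|t| * s) := fun s => by
    rw [mul_comm s]
  have hint : IntervalIntegrable (fun s => Lr G r (|t| * s)) volume 0 1 := by
    have h1 := (h.Lr_intervalIntegrable (T := |t|) hr0.le hr1.le (abs_nonneg t)).comp_mul_left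
      (c := |t|)
    rwa [zero_div, div_self ht'.ne'] at h1
  rw [← ofReal_integral_eq_lintegral_ofReal]
  · congr 1
    simp_rw [hcomp]
    rw [integral_const_mul, ← intervalIntegral.integral_of_le zero_le_one,
      intervalIntegral.integral_comp_mul_left _ ht'.ne']
    unfold psir
    rw [smul_eq_mul, mul_zero, mul_one]
    field_simp
  · simp_rw [hcomp]
    rw [intervalIntegrable_iff, Set.uIoc_of_le zero_le_one] at hint
    exact hint.const_mul _
  · refine (ae_restrict_iff' measurableSet_Ioc).2 (Filter.Eventually.of_forall fun s hs => ?_)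
    have h1 := (h.Lr_bound (T := max 1 (s * |t|)) hr0.le hr1.le (mul_pos hs.1 ht')
      (le_max_right _ _) (le_max_left _ _)).1
    exact mul_nonneg (mul_nonneg hc ht'.le) h1

lemma HData.isChf_psir (h : HData G g K) {c r : ℝ} (hc : 0 ≤ c) (hr0 : 0 < r) (hr1 : r < 1) :
    IsChf (fun t => Real.exp (-psir G c r t)) := by
  have hs1 : SigmaFinite baseM := by unfold baseM; infer_instance
  have hs2 : SigmaFinite (baseM.withDensity fun p => ENNReal.ofReal (wgt G c r p)) :=
    SigmaFinite.withDensity_of_ne_top (Filter.Eventually.of_forall fun _ => ENNReal.ofReal_ne_top)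
  exact isChf_sigmaFinite _ scl scl_measurable _ (h.lintegral_eq hc hr0 hr1)
    (h.psir_nonneg hc hr0.le hr1.le) (h.psir_continuousAt hc hr0.le hr1.le)

lemma phir_one {s : ℝ} (hs : 0 < s) : phir 1 s = s := by
  unfold phir zet
  field_simp
  ring

/-- **Main criterion**: all positive powers of `g` are characteristic functions. -/
theorem HData.isChf_rpow (h : HData G g K) {c : ℝ} (hc : 0 ≤ c) : IsChf (fun t => g t ^ c) := by
  let R : ℕ → ℝ := fun n => 1 - 1 / ((n : ℝ) + 2)
  have hR0 : ∀ n, 0 < R n := fun n => by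
    have : 1 / ((n : ℝ) + 2) ≤ 1 / 2 := by
      apply one_div_le_one_div_of_le (by norm_num)
      have : (0 : ℝ) ≤ n := by positivity
      linarith
    simp only [R]; linarith
  have hR1 : ∀ n, R n < 1 := fun n => by
    have : 0 < 1 / ((n : ℝ) + 2) := by positivity
    simp only [R]; linarith
  have hRlim : Tendsto R atTop (𝓝 1) := by
    have h1 : Tendsto (fun n : ℕ => 1 / ((n : ℝ) + 2)) atTop (𝓝 0) := by
      have h2 := (tendsto_one_div_add_atTop_nhds_zero_nat (𝕜 := ℝ)).comp (tendsto_add_atTop_nat 1)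
      refine h2.congr fun n => ?_
      simp only [Function.comp]
      push_cast
      ring_nf
    have h3 := h1.const_sub 1
    simpa [R] using h3
  refine IsChf.of_tendsto (fun n => h.isChf_psir hc (hR0 n) (hR1 n)) (fun t => ?_) ?_
  · -- convergence
    have key : Tendsto (fun n => ∫ s in (0 : ℝ)..|t|, Lr G (R n) s) atTop
        (𝓝 (∫ s in (0 : ℝ)..|t|, (LL G s).re)) := by
      refine intervalIntegral.tendsto_integral_filter_of_dominated_convergence
        (fun _ => K / g (max 1 |t|)) ?_ ?_ ?_ ?_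
      · refine Filter.Eventually.of_forall fun n => ?_
        rw [Set.uIoc_of_le (abs_nonneg t)]
        exact (((h.Lr_contOn (hR0 n).le (hR1 n).le).mono fun x hx => hx.1).aestronglyMeasurable
          measurableSet_Ioc)
      · refine Filter.Eventually.of_forall fun n => Filter.Eventually.of_forall fun s hs => ?_
        rw [Set.uIoc_of_le (abs_nonneg t)] at hs
        have h1 := h.Lr_bound (T := max 1 |t|) (hR0 n).le (hR1 n).le hs.1
          (hs.2.trans (le_max_right _ _)) (le_max_left _ _)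
        rw [Real.norm_eq_abs, abs_of_nonneg h1.1]
        exact h1.2
      · exact intervalIntegrable_const
      · refine Filter.Eventually.of_forall fun s hs => ?_
        rw [Set.uIoc_of_le (abs_nonneg t)] at hs
        have hs0 : 0 < s := hs.1
        have hc1 : ContinuousAt (fun z => (LL G z).re) (s : ℂ) :=
          continuous_re.continuousAt.comp ((h.LL_diff.differentiableAt
            (isOpen_RHP.mem_nhds (show (s : ℂ) ∈ RHP by simpa [RHP] using hs0))).continuousAt)
        have hc2 : Tendsto (fun n => ((phir (R n) s : ℝ) : ℂ)) atTop (𝓝 ((s : ℝ) : ℂ)) := by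
          refine (continuous_ofReal.tendsto _).comp ?_
          have h2 : ContinuousAt (fun r : ℝ => phir r s) 1 := by
            unfold phir
            refine ContinuousAt.div (by fun_prop) (by fun_prop) ?_
            have := abs_lt.1 (zet_abs_lt hs0)
            linarith
          have h3 := h2.tendsto.comp hRlim
          rwa [phir_one hs0] at h3
        exact hc1.tendsto.comp hc2
    rw [h.log_eq_integral (abs_nonneg t)] at key
    have h1 := (Real.continuous_exp.tendsto _).comp ((key.const_mul c).neg)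
    have h2 : Real.exp (-(c * -Real.log (g |t|))) = g t ^ c := by
      rw [← h.g_abs, Real.rpow_def_of_pos (h.g_pos' t)]
      ring_nf
    rw [h2] at h1
    exact h1
  · exact h.continuous.continuousAt.rpow_const (Or.inr hc)

end Pool.Agent.Helper95.Tsallis
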