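import Mathlib

/-!
# Contour shifts
-/

set_option autoImplicit false

open MeasureTheory Filter Topology Complex
open scoped Real

namespace Pool.Agent.Helper95.Tsallis

/-- Shifting a horizontal line of integration. -/
lemma contour_shift (F : ℂ → ℂ) (h : ℝ) (B : ℝ → ℝ)
    (hd : ∀ x y : ℝ, y ∈ Set.uIcc 0 h → DifferentiableAt ℂ F (x + y * I))
    (hb : ∀ x y : ℝ, y ∈ Set.uIcc 0 h → ‖F (x + y * I)‖ ≤ B x)
    (hB : Integrable B) (hBp : Tendsto B atTop (𝓝 0)) (hBm : Tendsto B atBot (𝓝 0)) :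
    ∫ x : ℝ, F x = ∫ x : ℝ, F (x + h * I) := by
  have hcont : ∀ y ∈ Set.uIcc 0 h, Continuous (fun x : ℝ => F (x + y * I)) := by
    intro y hy
    rw [continuous_iff_continuousAt]
    intro x
    exact ContinuousAt.comp (f := fun x : ℝ => ((x : ℂ) + y * I)) (hd x y hy).continuousAt
      (by fun_prop)
  have hint : ∀ y ∈ Set.uIcc 0 h, Integrable (fun x : ℝ => F (x + y * I)) := fun y hy =>
    hB.mono' (hcont y hy).aestronglyMeasurable (Filter.Eventually.of_forall fun x => hb x y hy)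
  have h0 : (0 : ℝ) ∈ Set.uIcc 0 h := Set.left_mem_uIcc
  have hh : h ∈ Set.uIcc 0 h := Set.right_mem_uIcc
  have e0 : ∀ x : ℝ, F x = F (x + (0 : ℝ) * I) := fun x => by simp
  have key : ∀ R : ℝ, (∫ x in (-R)..R, F (x + (0 : ℝ) * I)) - (∫ x in (-R)..R, F (x + h * I)) =
      I • (∫ y in (0 : ℝ)..h, F ((-R : ℝ) + y * I)) - I • ∫ y in (0 : ℝ)..h, F (R + y * I) := by
    intro R
    have h1 := Complex.integral_boundary_rect_eq_zero_of_differentiableOn F
      ((-R : ℝ) + (0 : ℝ) * I) ((R : ℝ) + (h : ℝ) * I) (by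
        intro z hz
        rw [Complex.mem_reProdIm] at hz
        have h2 : z = (z.re : ℂ) + (z.im : ℂ) * I := (re_add_im z).symm
        rw [h2]
        refine (hd z.re z.im ?_).differentiableWithinAt
        simpa using hz.2)
    simp only [add_re, add_im, mul_re, mul_im, ofReal_re, ofReal_im, I_re, I_im, mul_zero, mul_one,
      sub_zero, add_zero, zero_add] at h1
    linear_combination h1
  have hside : ∀ S : ℝ, ‖∫ y in (0 : ℝ)..h, F (S + y * I)‖ ≤ B S * |h| := by
    intro S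
    have h1 := intervalIntegral.norm_integral_le_of_norm_le_const (a := 0) (b := h)
      (f := fun y : ℝ => F (S + y * I)) (C := B S) (fun y hy => hb S y (Set.uIoc_subset_uIcc hy))
    simpa using h1
  have hs1 : Tendsto (fun R : ℝ => ∫ y in (0 : ℝ)..h, F (R + y * I)) atTop (𝓝 0) := by
    refine squeeze_zero_norm (fun R => hside R) ?_
    simpa using hBp.mul_const |h|
  have hs2 : Tendsto (fun R : ℝ => ∫ y in (0 : ℝ)..h, F ((-R : ℝ) + y * I)) atTop (𝓝 0) := by
    refine squeeze_zero_norm (fun R => hside (-R)) ?_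
    have := (hBm.comp tendsto_neg_atTop_atBot).mul_const |h|
    simpa using this
  have hl1 := intervalIntegral_tendsto_integral (hint 0 h0) tendsto_neg_atTop_atBot tendsto_id
  have hl2 := intervalIntegral_tendsto_integral (hint h hh) tendsto_neg_atTop_atBot tendsto_id
  have hl3 := hl1.sub hl2
  have hl4 : Tendsto (fun R : ℝ => I • (∫ y in (0 : ℝ)..h, F ((-R : ℝ) + y * I)) -
      I • ∫ y in (0 : ℝ)..h, F (R + y * I)) atTop (𝓝 (I • 0 - I • 0)) :=
    (hs2.const_smul I).sub (hs1.const_smul I)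
  have hl5 : Tendsto (fun R : ℝ => (∫ x in (-R)..(id R), F (x + (0 : ℝ) * I)) -
      (∫ x in (-R)..(id R), F (x + h * I))) atTop (𝓝 (I • 0 - I • 0)) := by
    refine hl4.congr fun R => ?_
    simp only [id]
    exact (key R).symm
  have h6 := tendsto_nhds_unique hl3 hl5
  simp only [smul_zero, sub_zero] at h6
  simp_rw [e0]
  exact sub_eq_zero.1 h6

lemma one_add_sq_le_cosh (x : ℝ) : 1 + x ^ 2 / 2 ≤ Real.cosh x := by
  have h1 : Real.cosh x = 1 + 2 * Real.sinh (x / 2) ^ 2 := by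
    have h2 := Real.cosh_two_mul (x / 2)
    have h3 := Real.cosh_sq (x / 2)
    rw [mul_div_cancel₀ x (two_ne_zero' ℝ)] at h2
    rw [h2, h3]; ring
  have h4 : (x / 2) ^ 2 ≤ Real.sinh (x / 2) ^ 2 := by
    rw [sq_le_sq]
    rcases le_total 0 (x / 2) with h5 | h5
    · have h6 := Real.self_le_sinh_iff.2 h5
      rw [abs_of_nonneg h5, abs_of_nonneg (h5.trans h6)]
      exact h6
    · have h6 := Real.sinh_le_self_iff.2 h5
      rw [abs_of_nonpos h5, abs_of_nonpos (h6.trans h5)]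
      linarith
  rw [h1]
  nlinarith

lemma exp_cosh_le {A : ℝ} (hA : 0 < A) (x : ℝ) :
    Real.exp (-(A * Real.cosh x)) ≤ Real.exp (-(A / 2) * x ^ 2) := by
  apply Real.exp_le_exp.2
  have := one_add_sq_le_cosh x
  nlinarith

lemma integrable_exp_cosh {A : ℝ} (hA : 0 < A) :
    Integrable (fun x : ℝ => Real.exp (-(A * Real.cosh x))) := by
  refine (integrable_exp_neg_mul_sq (b := A / 2) (by positivity)).mono' (by fun_prop)
    (Filter.Eventually.of_forall fun x => ?_)
  rw [Real.norm_eq_abs, abs_of_pos (Real.exp_pos _)]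
  exact exp_cosh_le hA x

lemma tendsto_exp_cosh_atTop {A : ℝ} (hA : 0 < A) :
    Tendsto (fun x : ℝ => Real.exp (-(A * Real.cosh x))) atTop (𝓝 0) := by
  refine Real.tendsto_exp_atBot.comp (tendsto_neg_atTop_atBot.comp ?_)
  refine Tendsto.const_mul_atTop hA ?_
  refine tendsto_atTop_mono (fun x => (show x ≤ Real.cosh x from ?_)) tendsto_id
  nlinarith [one_add_sq_le_cosh x, sq_nonneg (x - 1)]

lemma tendsto_exp_cosh_atBot {A : ℝ} (hA : 0 < A) :
    Tendsto (fun x : ℝ => Real.exp (-(A * Real.cosh x))) atBot (𝓝 0) := by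
  have := (tendsto_exp_cosh_atTop hA).comp tendsto_neg_atBot_atTop
  refine this.congr fun x => ?_
  simp

/-- the modified Bessel function `2 K_0`. -/
noncomputable def kk (ρ : ℝ) : ℝ := ∫ b : ℝ, Real.exp (-(ρ * Real.cosh b))

lemma kk_nonneg (ρ : ℝ) : 0 ≤ kk ρ := integral_nonneg fun _ => (Real.exp_pos _).le

lemma kk_anti {ρ1 ρ2 : ℝ} (h1 : 0 < ρ1) (h : ρ1 ≤ ρ2) : kk ρ2 ≤ kk ρ1 := by
  refine integral_mono (integrable_exp_cosh (h1.trans_le h)) (integrable_exp_cosh h1) fun b => ?_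
  simp only
  apply Real.exp_le_exp.2
  have := Real.cosh_pos b
  nlinarith

lemma kk_eq {A B : ℝ} (hA : 0 < A) :
    ∫ b : ℝ, cexp (-((A : ℂ) * Complex.cosh b + B * Complex.sinh b * I)) =
      (kk (Real.sqrt (A ^ 2 + B ^ 2)) : ℂ) := by
  set ρ := Real.sqrt (A ^ 2 + B ^ 2) with hρ
  have hρ0 : 0 < ρ := Real.sqrt_pos.2 (by positivity)
  set φ := Real.arctan (B / A) with hφ
  have hcos : ρ * Real.cos φ = A := by
    rw [hφ, Real.cos_arctan, hρ]
    have h1 : 1 + (B / A) ^ 2 = (A ^ 2 + B ^ 2) / A ^ 2 := by field_simp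
    rw [h1, Real.sqrt_div (by positivity), Real.sqrt_sq hA.le]
    have h2 : Real.sqrt (A ^ 2 + B ^ 2) ≠ 0 := by rw [← hρ]; exact hρ0.ne'
    field_simp
  have hsin : ρ * Real.sin φ = B := by
    rw [hφ, Real.sin_arctan, hρ]
    have h1 : 1 + (B / A) ^ 2 = (A ^ 2 + B ^ 2) / A ^ 2 := by field_simp
    rw [h1, Real.sqrt_div (by positivity), Real.sqrt_sq hA.le]
    have h2 : Real.sqrt (A ^ 2 + B ^ 2) ≠ 0 := by rw [← hρ]; exact hρ0.ne'
    field_simp
  have hφ1 : |φ| < π / 2 := by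
    rw [abs_lt]
    exact ⟨Real.neg_pi_div_two_lt_arctan _, Real.arctan_lt_pi_div_two _⟩
  have hF : ∀ x y : ℝ, cexp (-((ρ : ℂ) * Complex.cosh (x + y * I))) =
      cexp (-(((ρ * Real.cos y : ℝ) : ℂ) * Complex.cosh x +
        ((ρ * Real.sin y : ℝ) : ℂ) * Complex.sinh x * I)) := by
    intro x y
    congr 1
    rw [Complex.cosh_add, Complex.cosh_mul_I, Complex.sinh_mul_I]
    push_cast
    ring
  have hnorm : ∀ x y : ℝ, ‖cexp (-((ρ : ℂ) * Complex.cosh (x + y * I)))‖ =
      Real.exp (-(ρ * Real.cos y * Real.cosh x)) := by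
    intro x y
    rw [hF, Complex.norm_exp]
    congr 1
    rw [← Complex.ofReal_cosh, ← Complex.ofReal_sinh]
    simp only [neg_re, add_re, mul_re, ofReal_re, ofReal_im, mul_zero, sub_zero, I_re, I_im,
      zero_mul, mul_im, mul_one, add_zero, zero_add]
  have hshift := contour_shift (fun z => cexp (-((ρ : ℂ) * Complex.cosh z))) φ
    (fun x => Real.exp (-(A * Real.cosh x))) ?_ ?_ (integrable_exp_cosh hA)
    (tendsto_exp_cosh_atTop hA) (tendsto_exp_cosh_atBot hA)
  · have h1 : ∀ b : ℝ, cexp (-((A : ℂ) * Complex.cosh b + B * Complex.sinh b * I)) =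
        cexp (-((ρ : ℂ) * Complex.cosh (b + φ * I))) := by
      intro b
      rw [hF, hcos, hsin]
    simp_rw [h1]
    rw [← hshift]
    unfold kk
    rw [← integral_complex_ofReal]
    congr 1
    ext b
    push_cast
    rfl
  · intro x y _
    fun_prop
  · intro x y hy
    rw [hnorm]
    apply Real.exp_le_exp.2
    have h2 : Real.cos φ ≤ Real.cos y := by
      have h3 : |y| ≤ |φ| := by
        rcases le_total 0 φ with h4 | h4
        · rw [Set.uIcc_of_le h4] at hy
          rw [abs_of_nonneg hy.1, abs_of_nonneg h4]; exact hy.2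
        · rw [Set.uIcc_of_ge h4] at hy
          rw [abs_of_nonpos hy.2, abs_of_nonpos h4]; linarith [hy.1]
      rw [← Real.cos_abs φ, ← Real.cos_abs y]
      exact Real.cos_le_cos_of_nonneg_of_le_pi (abs_nonneg y) (by linarith [Real.pi_pos]) h3
    have h5 := Real.cosh_pos x
    rw [← hcos]
    have h6 : ρ * Real.cos φ ≤ ρ * Real.cos y := mul_le_mul_of_nonneg_left h2 hρ0.le
    nlinarith

end Pool.Agent.Helper95.Tsallis
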