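import Mathlib
import Pool.Agent.Helper95.Tsallis.ChfClass
import Pool.Agent.Helper95.Tsallis.Herglotz
import Pool.Agent.Helper95.Tsallis.Shift

/-!
# The Gaussian integral as a function of a complex parameter
-/

set_option autoImplicit false

open MeasureTheory ProbabilityTheory Filter Topology Complex
open scoped ENNReal NNReal Real

namespace Pool.Agent.Helper95.Tsallis

/-- `√(π / b)` for `Re b > 0`. -/
noncomputable def EE (b : ℂ) : ℂ := ((π : ℂ) / b) ^ (1 / 2 : ℂ)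

lemma pi_div_re {b : ℂ} (hb : 0 < b.re) : 0 < ((π : ℂ) / b).re := by
  rw [Complex.div_re]
  have h1 : 0 < normSq b := normSq_pos.2 (by rintro rfl; simp at hb)
  simp only [ofReal_re, ofReal_im, zero_mul, zero_div, add_zero]
  have := Real.pi_pos
  positivity

lemma ne_zero_of_re {b : ℂ} (hb : 0 < b.re) : b ≠ 0 := by
  rintro rfl; simp at hb

lemma EE_eq_integral {b : ℂ} (hb : 0 < b.re) : EE b = ∫ x : ℝ, cexp (-b * (x : ℂ) ^ 2) :=
  (integral_gaussian_complex hb).symm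

lemma EE_sq {b : ℂ} : EE b ^ 2 = π / b := by
  have := Complex.cpow_ofNat_inv_pow ((π : ℂ) / b) 2
  unfold EE
  rw [one_div]
  exact this

lemma EE_mul_aux {b b' : ℂ} (hb : 0 < b.re) (hb' : 0 < b'.re) :
    EE b * EE b' = cexp (Complex.log ((π : ℂ) / b * ((π : ℂ) / b')) * (1 / 2)) := by
  have h1 := pi_div_re hb
  have h2 := pi_div_re hb'
  unfold EE
  rw [Complex.cpow_def_of_ne_zero (ne_zero_of_re h1), Complex.cpow_def_of_ne_zero (ne_zero_of_re h2),
    ← Complex.exp_add, Complex.log_mul (ne_zero_of_re h1) (ne_zero_of_re h2), add_mul]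
  have h3 := abs_lt.1 (Complex.abs_arg_lt_pi_div_two_iff.2 (Or.inl h1))
  have h4 := abs_lt.1 (Complex.abs_arg_lt_pi_div_two_iff.2 (Or.inl h2))
  constructor <;> linarith [h3.1, h3.2, h4.1, h4.2]

lemma EE_mul_eq {b b' c c' : ℂ} (hb : 0 < b.re) (hb' : 0 < b'.re) (hc : 0 < c.re)
    (hc' : 0 < c'.re) (h : b * b' = c * c') : EE b * EE b' = EE c * EE c' := by
  rw [EE_mul_aux hb hb', EE_mul_aux hc hc']
  have : (π : ℂ) / b * ((π : ℂ) / b') = (π : ℂ) / c * ((π : ℂ) / c') := by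
    rw [div_mul_div_comm, div_mul_div_comm, h]
  rw [this]

lemma norm_EE {b : ℂ} : ‖EE b‖ = √(π / ‖b‖) := by
  have h1 : ‖EE b‖ ^ 2 = π / ‖b‖ := by
    rw [← norm_pow, EE_sq, norm_div, Complex.norm_real, Real.norm_eq_abs, abs_of_pos Real.pi_pos]
  rw [← h1, Real.sqrt_sq (norm_nonneg _)]

lemma norm_EE_le {b : ℂ} (hb : 1 ≤ b.re) : ‖EE b‖ ≤ √π := by
  rw [norm_EE]
  apply Real.sqrt_le_sqrt
  have h1 : 1 ≤ ‖b‖ := hb.trans ((le_abs_self _).trans (Complex.abs_re_le_norm b))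
  exact div_le_self Real.pi_pos.le h1

lemma conj_EE {b : ℂ} (hb : 0 < b.re) : (starRingEnd ℂ) (EE b) = EE ((starRingEnd ℂ) b) := by
  rw [EE_eq_integral hb, EE_eq_integral (by simpa using hb), ← integral_conj]
  congr 1
  ext x
  rw [← Complex.exp_conj]
  simp

lemma EE_real {b : ℝ} (hb : 0 < b) : EE (b : ℂ) = (√(π / b) : ℝ) := by
  rw [EE_eq_integral (by simpa using hb), ← integral_gaussian b, ← integral_complex_ofReal]
  congr 1
  ext x
  push_cast
  rfl

lemma EE_differentiableAt {b : ℂ} (hb : 0 < b.re) : DifferentiableAt ℂ EE b := by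
  have h1 := pi_div_re hb
  have h2 : DifferentiableAt ℂ (fun z : ℂ => (π : ℂ) / z) b :=
    (differentiableAt_const _).div differentiableAt_id (ne_zero_of_re hb)
  exact h2.cpow_const (Or.inl h1)

end Pool.Agent.Helper95.Tsallis
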