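import Mathlib
import Pool.Agent.Helper95.Tsallis.Gauss

/-!
# The continued characteristic function `GG`
-/

set_option autoImplicit false

open MeasureTheory ProbabilityTheory Filter Topology Complex
open scoped ENNReal NNReal Real

namespace Pool.Agent.Helper95.Tsallis

/-- `cosh (v/2) + i sinh (v/2)`. -/
noncomputable def uu (v : ℝ) : ℂ := Real.cosh (v / 2) + Real.sinh (v / 2) * I

lemma normSq_uu (v : ℝ) : ‖uu v‖ ^ 2 = Real.cosh v := by
  rw [← Complex.normSq_eq_norm_sq, Complex.normSq_apply]
  unfold uu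
  simp only [add_re, add_im, mul_re, mul_im, ofReal_re, ofReal_im, I_re, I_im, mul_zero, mul_one,
    zero_mul, sub_zero, add_zero, zero_add]
  have h2 := Real.cosh_two_mul (v / 2)
  rw [mul_div_cancel₀ v (two_ne_zero' ℝ)] at h2
  rw [h2]; ring

lemma one_le_norm_uu (v : ℝ) : 1 ≤ ‖uu v‖ := by
  have h1 := normSq_uu v
  have h2 := Real.one_le_cosh v
  by_contra h
  push Not at h
  nlinarith [norm_nonneg (uu v)]

lemma uu_ne_zero (v : ℝ) : uu v ≠ 0 := by
  intro h
  have := one_le_norm_uu v
  rw [h, norm_zero] at this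
  linarith

/-- the density of the representation of `GG`. -/
noncomputable def psi (v : ℝ) : ℂ := 2 * (uu v)⁻¹ ^ 3 * EE (3 + Real.sinh v * I) / (√π : ℝ)

lemma three_re (x : ℝ) : (3 + (x : ℂ) * I).re = 3 := by simp

lemma norm_psi_le (v : ℝ) : ‖psi v‖ ≤ 2 := by
  unfold psi
  rw [norm_div, norm_mul, norm_mul, norm_pow, norm_inv, Complex.norm_real, Real.norm_eq_abs,
    abs_of_nonneg (Real.sqrt_nonneg _)]
  have h1 : ‖EE (3 + Real.sinh v * I)‖ ≤ √π := norm_EE_le (by rw [three_re]; norm_num)
  have h2 : ‖uu v‖⁻¹ ^ 3 ≤ 1 := pow_le_one₀ (by positivity) (inv_le_one_of_one_le₀ (one_le_norm_uu v))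
  have h3 : 0 < √π := Real.sqrt_pos.2 Real.pi_pos
  rw [div_le_iff₀ h3]
  have h4 : ‖(2 : ℂ)‖ = 2 := by simp
  rw [h4]
  have h5 : 0 ≤ ‖uu v‖⁻¹ ^ 3 := by positivity
  nlinarith [norm_nonneg (EE (3 + Real.sinh v * I))]

lemma continuous_uu : Continuous uu := by
  unfold uu; fun_prop

lemma continuous_psi : Continuous psi := by
  unfold psi
  have h1 : Continuous fun v : ℝ => EE (3 + Real.sinh v * I) := by
    rw [continuous_iff_continuousAt]
    intro v
    exact ContinuousAt.comp (f := fun v : ℝ => (3 + (Real.sinh v : ℂ) * I))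
      (EE_differentiableAt (by rw [three_re]; norm_num)).continuousAt (by fun_prop)
  have h2 : Continuous fun v : ℝ => (uu v)⁻¹ := continuous_uu.inv₀ uu_ne_zero
  have h3 : ((√π : ℝ) : ℂ) ≠ 0 := by
    exact_mod_cast (Real.sqrt_pos.2 Real.pi_pos).ne'
  fun_prop (disch := assumption)

/-- the analytic continuation of the characteristic function. -/
noncomputable def GG (z : ℂ) : ℂ := ∫ v : ℝ, cexp (-(z * Real.cosh v)) * psi v

lemma norm_exp_cosh (z : ℂ) (v : ℝ) :
    ‖cexp (-(z * Real.cosh v))‖ = Real.exp (-(z.re * Real.cosh v)) := by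
  rw [Complex.norm_exp]
  congr 1
  simp

lemma integrable_GG {z : ℂ} (hz : 0 < z.re) :
    Integrable fun v : ℝ => cexp (-(z * Real.cosh v)) * psi v := by
  refine ((integrable_exp_cosh hz).mul_const 2).mono' ?_ (Filter.Eventually.of_forall fun v => ?_)
  · have := continuous_psi
    exact Continuous.aestronglyMeasurable (by fun_prop)
  · rw [norm_mul, norm_exp_cosh]
    exact mul_le_mul_of_nonneg_left (norm_psi_le v) (Real.exp_pos _).le

lemma GG_differentiableAt {z₀ : ℂ} (hz : 0 < z₀.re) : DifferentiableAt ℂ GG z₀ := by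
  set c := z₀.re / 2 with hc
  have hc0 : 0 < c := by positivity
  have hs : {z : ℂ | c < z.re} ∈ 𝓝 z₀ :=
    (isOpen_lt continuous_const continuous_re).mem_nhds (by
      show c < z₀.re
      linarith)
  have hψ := continuous_psi
  have key := hasDerivAt_integral_of_dominated_loc_of_deriv_le (μ := (volume : Measure ℝ))
    (F := fun z v => cexp (-(z * Real.cosh v)) * psi v) (x₀ := z₀) (s := {z : ℂ | c < z.re})
    (F' := fun z v => -(Real.cosh v : ℂ) * cexp (-(z * Real.cosh v)) * psi v)
    (bound := fun v => 4 / c * Real.exp (-(c / 2 * Real.cosh v)))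
    hs (Filter.Eventually.of_forall fun z => Continuous.aestronglyMeasurable (by fun_prop))
    (integrable_GG hz) (Continuous.aestronglyMeasurable (by fun_prop)) ?_
    ((integrable_exp_cosh (by positivity)).const_mul _) ?_
  · exact key.2.differentiableAt
  · refine Filter.Eventually.of_forall fun v z hzc => ?_
    rw [norm_mul, norm_mul, norm_exp_cosh, norm_neg, Complex.norm_real, Real.norm_eq_abs,
      abs_of_pos (Real.cosh_pos v)]
    have h1 := Real.cosh_pos v
    have h2 : Real.exp (-(z.re * Real.cosh v)) ≤ Real.exp (-(c * Real.cosh v)) := by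
      apply Real.exp_le_exp.2
      have : c < z.re := by simpa using hzc
      nlinarith
    have h3 : Real.exp (-(c * Real.cosh v)) =
        Real.exp (-(c / 2 * Real.cosh v)) * Real.exp (-(c / 2 * Real.cosh v)) := by
      rw [← Real.exp_add]; congr 1; ring
    have h4 : Real.cosh v * Real.exp (-(c / 2 * Real.cosh v)) ≤ 2 / c := by
      have h5 : c / 2 * Real.cosh v ≤ Real.exp (c / 2 * Real.cosh v) := by
        have := Real.add_one_le_exp (c / 2 * Real.cosh v)
        linarith
      rw [Real.exp_neg, ← div_eq_mul_inv, div_le_div_iff₀ (Real.exp_pos _) hc0]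
      nlinarith
    calc Real.cosh v * Real.exp (-(z.re * Real.cosh v)) * ‖psi v‖
        ≤ Real.cosh v * Real.exp (-(c * Real.cosh v)) * 2 := by
          apply mul_le_mul _ (norm_psi_le v) (norm_nonneg _) (by positivity)
          exact mul_le_mul_of_nonneg_left h2 h1.le
      _ = (Real.cosh v * Real.exp (-(c / 2 * Real.cosh v))) *
          (2 * Real.exp (-(c / 2 * Real.cosh v))) := by rw [h3]; ring
      _ ≤ (2 / c) * (2 * Real.exp (-(c / 2 * Real.cosh v))) :=
          mul_le_mul_of_nonneg_right h4 (by positivity)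
      _ = 4 / c * Real.exp (-(c / 2 * Real.cosh v)) := by ring
  · refine Filter.Eventually.of_forall fun v z _ => ?_
    have h1 : HasDerivAt (fun z : ℂ => -(z * (Real.cosh v : ℂ))) (-(1 * (Real.cosh v : ℂ))) z :=
      ((hasDerivAt_id z).mul_const _).neg
    have h2 := (h1.cexp).mul_const (psi v)
    have h3 : -(Real.cosh v : ℂ) * cexp (-(z * Real.cosh v)) * psi v =
        cexp (-(z * (Real.cosh v : ℂ))) * -(1 * (Real.cosh v : ℂ)) * psi v := by ring
    rw [h3]
    exact h2

lemma GG_diffOn : DifferentiableOn ℂ GG RHP := fun _ hz =>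
  (GG_differentiableAt hz).differentiableWithinAt

end Pool.Agent.Helper95.Tsallis
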