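import Mathlib
import Pool.Agent.Helper95.Tsallis.Formula

/-!
# The modulus of `GG` decreases along horizontal lines
-/

set_option autoImplicit false

open MeasureTheory ProbabilityTheory Filter Topology Complex
open scoped ENNReal NNReal Real

namespace Pool.Agent.Helper95.Tsallis

lemma uu_mul (a b : ℝ) : uu (a + b) * (starRingEnd ℂ) (uu (a - b)) =
    Real.cosh a + Real.sinh b * I := by
  have h1 : Real.cosh a = Real.cosh ((a + b) / 2) * Real.cosh ((a - b) / 2) +
      Real.sinh ((a + b) / 2) * Real.sinh ((a - b) / 2) := by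
    rw [← Real.cosh_add]; congr 1; ring
  have h2 : Real.sinh b = Real.sinh ((a + b) / 2) * Real.cosh ((a - b) / 2) -
      Real.cosh ((a + b) / 2) * Real.sinh ((a - b) / 2) := by
    rw [← Real.sinh_sub]; congr 1; ring
  unfold uu
  rw [h1, h2]
  simp only [map_add, map_mul, conj_ofReal, conj_I]
  push_cast
  linear_combination (-(Complex.sinh ((a + b) / 2) * Complex.sinh ((a - b) / 2))) * I_sq

lemma abs_sinh_lt_cosh (a : ℝ) : |Real.sinh a| < Real.cosh a := by
  rw [abs_lt]
  exact ⟨by have := Real.exp_pos a; rw [← Real.cosh_add_sinh] at this; linarith,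
    Real.sinh_lt_cosh a⟩

/-- The exponents. -/
noncomputable def gam (a : ℝ) : Fin 8 → ℝ :=
  ![Real.cosh a, Real.cosh a, Real.cosh a, Real.cosh a, Real.cosh a, Real.cosh a,
    3 * Real.cosh a - √8 * Real.sinh a, 3 * Real.cosh a + √8 * Real.sinh a]

lemma sqrt8_lt : √8 < 3 := by
  rw [Real.sqrt_lt' (by norm_num)]; norm_num

lemma gam_pos (a : ℝ) (j : Fin 8) : 0 < gam a j := by
  have h1 := Real.cosh_pos a
  have h2 := abs_lt.1 (abs_sinh_lt_cosh a)
  have h3 := sqrt8_lt
  have h4 : 0 ≤ √8 := Real.sqrt_nonneg _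
  have h5 : 0 < 3 * Real.cosh a - √8 * Real.sinh a := by
    nlinarith [h2.1, h2.2, mul_nonneg h4 (sub_nonneg.2 h2.2.le)]
  have h6 : 0 < 3 * Real.cosh a + √8 * Real.sinh a := by
    nlinarith [h2.1, h2.2, mul_nonneg h4 (sub_nonneg.2 h2.1.le)]
  fin_cases j <;> simp [gam, h1] <;> linarith

lemma re_add_mulI (r x : ℝ) : ((r : ℂ) + (x : ℂ) * I).re = r := by simp

lemma three_sub_re (x : ℝ) : (3 - (x : ℂ) * I).re = 3 := by simp

lemma EE_psi_mul (a b : ℝ) : EE (3 + Real.sinh (a + b) * I) * EE (3 - Real.sinh (a - b) * I) =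
    EE (((3 * Real.cosh a - √8 * Real.sinh a : ℝ) : ℂ) + Real.sinh b * I) *
    EE (((3 * Real.cosh a + √8 * Real.sinh a : ℝ) : ℂ) + Real.sinh b * I) := by
  apply EE_mul_eq
  · rw [three_re]; norm_num
  · rw [three_sub_re]; norm_num
  · have := gam_pos a 6
    rw [re_add_mulI]
    exact this
  · have := gam_pos a 7
    rw [re_add_mulI]
    exact this
  · have h8 : ((√8 : ℝ) : ℂ) ^ 2 = 8 := by
      rw [← ofReal_pow, Real.sq_sqrt (by norm_num)]; norm_num
    have ha : (Real.cosh a : ℂ) ^ 2 = 1 + (Real.sinh a : ℂ) ^ 2 := by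
      rw [← ofReal_pow, Real.cosh_sq]; push_cast; ring
    have hb : (Real.cosh b : ℂ) ^ 2 = 1 + (Real.sinh b : ℂ) ^ 2 := by
      rw [← ofReal_pow, Real.cosh_sq]; push_cast; ring
    rw [Real.sinh_add, Real.sinh_sub]
    push_cast at *
    set A := Complex.cosh a
    set B := Complex.sinh a
    set C := Complex.cosh b
    set D := Complex.sinh b
    set s : ℂ := ((√8 : ℝ) : ℂ)
    have hI : I ^ 2 = -1 := I_sq
    linear_combination (-(B ^ 2 * C ^ 2) + A ^ 2 * D ^ 2 - D ^ 2) * hI + B ^ 2 * h8 +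
      (-9 - D ^ 2) * ha + B ^ 2 * hb

/-- squared norm -/
noncomputable def NN (X : Fin 8 → ℝ) : ℝ := ∑ j, X j ^ 2

/-- Gaussian weight -/
noncomputable def ww (a : ℝ) (X : Fin 8 → ℝ) : ℝ := ∏ j, Real.exp (-(gam a j) * X j ^ 2)

lemma ww_nonneg (a : ℝ) (X : Fin 8 → ℝ) : 0 ≤ ww a X :=
  Finset.prod_nonneg fun _ _ => (Real.exp_pos _).le

lemma ww_integrable (a : ℝ) : Integrable (ww a) := by
  unfold ww
  exact Integrable.fintype_prod (f := fun j x => Real.exp (-(gam a j) * x ^ 2))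
    fun j => integrable_exp_neg_mul_sq (gam_pos a j)

lemma ww_continuous (a : ℝ) : Continuous (ww a) := by
  unfold ww; fun_prop

lemma NN_continuous : Continuous NN := by
  unfold NN; fun_prop

lemma prod_EE (a b : ℝ) : ∏ j, EE ((gam a j : ℂ) + Real.sinh b * I) =
    ∫ X : Fin 8 → ℝ, (ww a X : ℂ) * cexp (-(Real.sinh b * NN X * I)) := by
  have h1 : ∀ j, EE ((gam a j : ℂ) + Real.sinh b * I) =
      ∫ x : ℝ, cexp (-((gam a j : ℂ) + Real.sinh b * I) * (x : ℂ) ^ 2) := fun j =>
    EE_eq_integral (by simpa using gam_pos a j)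
  simp_rw [h1]
  rw [← integral_fintype_prod_eq_prod (μ := fun _ => (volume : Measure ℝ))
    (fun (j : Fin 8) (x : ℝ) => cexp (-((gam a j : ℂ) + Real.sinh b * I) * (x : ℂ) ^ 2))]
  refine integral_congr_ae (Filter.Eventually.of_forall fun X => ?_)
  simp only
  unfold ww NN
  push_cast
  rw [← Complex.exp_sum, ← Complex.exp_sum, ← Complex.exp_add]
  congr 1
  rw [Finset.mul_sum, Finset.sum_mul, ← Finset.sum_neg_distrib, ← Finset.sum_add_distrib]
  refine Finset.sum_congr rfl fun j _ => ?_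
  ring

lemma psi_mul (a b : ℝ) : psi (a + b) * (starRingEnd ℂ) (psi (a - b)) =
    4 / (π : ℂ) ^ 4 * ∏ j, EE ((gam a j : ℂ) + Real.sinh b * I) := by
  have h1 : (starRingEnd ℂ) (EE (3 + Real.sinh (a - b) * I)) = EE (3 - Real.sinh (a - b) * I) := by
    rw [conj_EE (by rw [three_re]; norm_num)]
    congr 1
    simp only [map_add, map_mul, conj_ofReal, conj_I, map_ofNat]
    ring
  have h2 : ((√π : ℝ) : ℂ) ^ 2 = π := by
    rw [← ofReal_pow, Real.sq_sqrt Real.pi_pos.le]
  have hπ : (π : ℂ) ≠ 0 := by exact_mod_cast Real.pi_ne_zero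
  have hs : ((√π : ℝ) : ℂ) ≠ 0 := by
    exact_mod_cast (Real.sqrt_pos.2 Real.pi_pos).ne'
  have h3 := EE_sq (b := (Real.cosh a : ℂ) + Real.sinh b * I)
  have h4 := uu_mul a b
  have h5 := EE_psi_mul a b
  have hu1 := uu_ne_zero (a + b)
  have hu2 : (starRingEnd ℂ) (uu (a - b)) ≠ 0 := by
    rw [Ne, map_eq_zero]
    exact uu_ne_zero (a - b)
  unfold psi
  simp only [map_div₀, map_mul, map_pow, map_inv₀, conj_ofReal, map_ofNat, h1]
  rw [Fin.prod_univ_eight]
  simp only [gam]
  have e1 : 2 * (uu (a + b))⁻¹ ^ 3 * EE (3 + Real.sinh (a + b) * I) / (√π : ℝ) *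
      (2 * ((starRingEnd ℂ) (uu (a - b)))⁻¹ ^ 3 * EE (3 - Real.sinh (a - b) * I) / (√π : ℝ)) =
      4 * ((uu (a + b) * (starRingEnd ℂ) (uu (a - b)))⁻¹) ^ 3 *
      (EE (3 + Real.sinh (a + b) * I) * EE (3 - Real.sinh (a - b) * I)) / (((√π : ℝ) : ℂ) ^ 2) := by
    rw [mul_inv]
    field_simp
    ring
  rw [e1, h4, h5, h2]
  have h6 : ((Real.cosh a : ℂ) + Real.sinh b * I)⁻¹ =
      EE ((Real.cosh a : ℂ) + Real.sinh b * I) ^ 2 / π := by
    rw [h3]; field_simp
  rw [h6]
  simp
  field_simp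

/-- the integrand of `|GG|²` -/
noncomputable def FF (z : ℂ) (v w : ℝ) : ℂ :=
  (cexp (-(z * Real.cosh v)) * psi v) *
    (starRingEnd ℂ) (cexp (-(z * Real.cosh w)) * psi w)

/-- the radius. -/
noncomputable def rad (x y a : ℝ) (X : Fin 8 → ℝ) : ℝ :=
  √((2 * x * Real.cosh a) ^ 2 + (2 * y * Real.sinh a + NN X) ^ 2)

/-- the inner integrand -/
noncomputable def HH (x y a b : ℝ) (X : Fin 8 → ℝ) : ℂ :=
  (ww a X : ℂ) * cexp (-(((2 * x * Real.cosh a : ℝ) : ℂ) * Complex.cosh b +
    ((2 * y * Real.sinh a + NN X : ℝ) : ℂ) * Complex.sinh b * I))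

lemma FF_eq (x y a b : ℝ) : FF (x + y * I) (a + b) (a - b) =
    4 / (π : ℂ) ^ 4 * ∫ X : Fin 8 → ℝ, HH x y a b X := by
  have h0 : FF (x + y * I) (a + b) (a - b) =
      (cexp (-((x + y * I) * Real.cosh (a + b))) *
        (starRingEnd ℂ) (cexp (-((x + y * I) * Real.cosh (a - b))))) *
      (psi (a + b) * (starRingEnd ℂ) (psi (a - b))) := by
    unfold FF
    rw [map_mul]; ring
  rw [h0, psi_mul, prod_EE, ← Complex.exp_conj, ← Complex.exp_add]
  have h1 : -((x + y * I) * (Real.cosh (a + b) : ℂ)) +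
      (starRingEnd ℂ) (-((x + y * I) * (Real.cosh (a - b) : ℂ))) =
      -(2 * x * Real.cosh a * Real.cosh b + 2 * y * Real.sinh a * Real.sinh b * I) := by
    simp only [map_neg, map_mul, map_add, conj_ofReal, conj_I]
    rw [Real.cosh_add, Real.cosh_sub]
    push_cast
    ring
  rw [h1, mul_left_comm, ← integral_const_mul]
  congr 1
  refine integral_congr_ae (Filter.Eventually.of_forall fun X => ?_)
  simp only
  unfold HH
  rw [mul_left_comm, ← Complex.exp_add]
  congr 2
  push_cast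
  ring

lemma norm_HH (x y a b : ℝ) (X : Fin 8 → ℝ) :
    ‖HH x y a b X‖ = ww a X * Real.exp (-(2 * x * Real.cosh a * Real.cosh b)) := by
  unfold HH
  rw [norm_mul, Complex.norm_real, Real.norm_eq_abs, abs_of_nonneg (ww_nonneg a X),
    Complex.norm_exp, ← Complex.ofReal_cosh, ← Complex.ofReal_sinh]
  congr 2
  simp only [neg_re, add_re, mul_re, ofReal_re, ofReal_im, I_re, I_im, mul_im, mul_zero, mul_one,
    zero_mul, sub_zero, add_zero]

lemma HH_integrable {x : ℝ} (hx : 0 < x) (y a : ℝ) :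
    Integrable (Function.uncurry fun (b : ℝ) (X : Fin 8 → ℝ) => HH x y a b X)
      ((volume : Measure ℝ).prod (volume : Measure (Fin 8 → ℝ))) := by
  have h1 : 0 < 2 * x * Real.cosh a := by have := Real.cosh_pos a; positivity
  have h2 := (integrable_exp_cosh h1).mul_prod (ww_integrable a)
  refine h2.mono' ?_ (Filter.Eventually.of_forall fun p => ?_)
  · have hw := ww_continuous a
    have hN := NN_continuous
    apply Continuous.aestronglyMeasurable
    unfold HH Function.uncurry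
    fun_prop
  · simp only [Function.uncurry]
    rw [norm_HH, mul_comm]

lemma HH_int_b {x : ℝ} (hx : 0 < x) (y a : ℝ) (X : Fin 8 → ℝ) :
    ∫ b : ℝ, HH x y a b X = ((ww a X * kk (rad x y a X) : ℝ) : ℂ) := by
  have h1 : 0 < 2 * x * Real.cosh a := by have := Real.cosh_pos a; positivity
  unfold HH
  rw [integral_const_mul, kk_eq h1]
  unfold rad
  push_cast
  rfl

/-- the inner integral -/
noncomputable def JJ (x y a : ℝ) : ℝ :=
  4 / π ^ 4 * ∫ X : Fin 8 → ℝ, ww a X * kk (rad x y a X)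

lemma FF_int_b {x : ℝ} (hx : 0 < x) (y a : ℝ) :
    ∫ b : ℝ, FF (x + y * I) (a + b) (a - b) = (JJ x y a : ℂ) := by
  simp_rw [FF_eq]
  rw [integral_const_mul, integral_integral_swap (HH_integrable hx y a)]
  simp_rw [HH_int_b hx]
  rw [integral_complex_ofReal]
  unfold JJ
  push_cast
  rfl

lemma ww_kk_integrable {x : ℝ} (hx : 0 < x) (y a : ℝ) :
    Integrable fun X : Fin 8 → ℝ => ww a X * kk (rad x y a X) := by
  have h1 := (HH_integrable hx y a).integral_prod_right
  simp only [Function.uncurry] at h1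
  simp_rw [HH_int_b hx] at h1
  have h2 := h1.re
  simpa using h2

lemma JJ_anti {x1 x2 : ℝ} (hx1 : 0 < x1) (hx : x1 ≤ x2) (y a : ℝ) : JJ x2 y a ≤ JJ x1 y a := by
  unfold JJ
  apply mul_le_mul_of_nonneg_left _ (by positivity)
  refine integral_mono (ww_kk_integrable (hx1.trans_le hx) y a) (ww_kk_integrable hx1 y a)
    fun X => ?_
  simp only
  apply mul_le_mul_of_nonneg_left _ (ww_nonneg a X)
  have hc := Real.cosh_pos a
  apply kk_anti
  · unfold rad
    apply Real.sqrt_pos.2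
    positivity
  · unfold rad
    apply Real.sqrt_le_sqrt
    gcongr

lemma measurePreserving_shear : MeasurePreserving (fun p : ℝ × ℝ => (p.2 + p.1 / 2, p.2 - p.1 / 2))
    ((volume : Measure ℝ).prod (volume : Measure ℝ))
    ((volume : Measure ℝ).prod (volume : Measure ℝ)) := by
  have h1 : MeasurePreserving (fun p : ℝ × ℝ => (p.1, p.2 - p.1 / 2))
      ((volume : Measure ℝ).prod (volume : Measure ℝ))
      ((volume : Measure ℝ).prod (volume : Measure ℝ)) := by
    refine (MeasurePreserving.id (volume : Measure ℝ)).skew_product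
      (g := fun d a => a - d / 2) (by unfold Function.uncurry; fun_prop) ?_
    refine Filter.Eventually.of_forall fun d => ?_
    exact (measurePreserving_sub_right (volume : Measure ℝ) (d / 2)).map_eq
  have h2 := measurePreserving_add_prod (volume : Measure ℝ) (volume : Measure ℝ)
  have h3 := h2.comp h1
  convert h3 using 1
  ext p
  · simp only [Function.comp]; ring
  · simp only [Function.comp]

lemma FF_integrable {z : ℂ} (hz : 0 < z.re) :
    Integrable (fun p : ℝ × ℝ => FF z p.1 p.2)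
      ((volume : Measure ℝ).prod (volume : Measure ℝ)) := by
  have h1 := integrable_GG hz
  have h2 : Integrable fun v : ℝ => (starRingEnd ℂ) (cexp (-(z * Real.cosh v)) * psi v) := by
    refine h1.norm.mono' ?_ (Filter.Eventually.of_forall fun v => by simp)
    exact (Complex.continuous_conj.comp_aestronglyMeasurable h1.aestronglyMeasurable)
  exact h1.mul_prod h2

lemma normSq_GG {z : ℂ} (hz : 0 < z.re) :
    ((‖GG z‖ ^ 2 : ℝ) : ℂ) = ∫ p : ℝ × ℝ, FF z p.1 p.2
      ∂((volume : Measure ℝ).prod (volume : Measure ℝ)) := by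
  unfold FF
  rw [integral_prod_mul (fun v : ℝ => cexp (-(z * Real.cosh v)) * psi v)
    (fun v : ℝ => (starRingEnd ℂ) (cexp (-(z * Real.cosh v)) * psi v)), integral_conj]
  rw [ofReal_pow]
  exact (Complex.mul_conj' (GG z)).symm

lemma FF_shear_integrable {z : ℂ} (hz : 0 < z.re) :
    Integrable (fun p : ℝ × ℝ => FF z (p.2 + p.1 / 2) (p.2 - p.1 / 2))
      ((volume : Measure ℝ).prod (volume : Measure ℝ)) :=
  measurePreserving_shear.integrable_comp_of_integrable (FF_integrable hz)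

lemma inner_eq {x : ℝ} (hx : 0 < x) (y a : ℝ) :
    ∫ d : ℝ, FF (x + y * I) (a + d / 2) (a - d / 2) = ((2 * JJ x y a : ℝ) : ℂ) := by
  have h1 := Measure.integral_comp_div (fun b : ℝ => FF (x + y * I) (a + b) (a - b)) 2
  rw [h1, FF_int_b hx]
  simp

lemma normSq_GG_eq {x : ℝ} (hx : 0 < x) (y : ℝ) :
    Integrable (fun a => 2 * JJ x y a) ∧ ‖GG (x + y * I)‖ ^ 2 = ∫ a, 2 * JJ x y a := by
  have hz : 0 < ((x : ℂ) + y * I).re := by rw [re_add_mulI]; exact hx
  have h1 := FF_shear_integrable hz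
  have h2 := h1.integral_prod_right
  simp only [inner_eq hx] at h2
  have h3 : Integrable (fun a => 2 * JJ x y a) := by
    have := h2.re
    simpa only [RCLike.re_to_complex, ofReal_re] using this
  refine ⟨h3, ?_⟩
  have h4 := normSq_GG hz
  rw [← measurePreserving_shear.map_eq, integral_map measurePreserving_shear.aemeasurable
    (by rw [measurePreserving_shear.map_eq]; exact (FF_integrable hz).aestronglyMeasurable),
    integral_prod_symm _ h1] at h4
  simp only [inner_eq hx] at h4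
  rw [integral_complex_ofReal] at h4
  exact_mod_cast h4

/-- `GG` has decreasing modulus on horizontal lines. -/
lemma GG_anti (y x1 x2 : ℝ) (hx1 : 0 < x1) (hx : x1 ≤ x2) :
    ‖GG (x2 + y * I)‖ ≤ ‖GG (x1 + y * I)‖ := by
  have h1 := normSq_GG_eq hx1 y
  have h2 := normSq_GG_eq (hx1.trans_le hx) y
  have h3 : ‖GG (x2 + y * I)‖ ^ 2 ≤ ‖GG (x1 + y * I)‖ ^ 2 := by
    rw [h1.2, h2.2]
    refine integral_mono h2.1 h1.1 fun a => ?_
    simp only
    have := JJ_anti hx1 hx y a
    linarith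
  exact (sq_le_sq₀ (norm_nonneg _) (norm_nonneg _)).1 h3

end Pool.Agent.Helper95.Tsallis
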