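import Mathlib
import Pool.Agent.Helper95.Tsallis.Defs
import Pool.Agent.Helper95.Tsallis.Mono

/-!
# The substitution `x = x(u)` with `c(x(u)) = sinh u`
-/

set_option autoImplicit false

open MeasureTheory ProbabilityTheory Filter Topology Complex
open scoped ENNReal NNReal Real

namespace Pool.Agent.Helper95.Tsallis

/-- `√(cosh² (u/2) + 1)`. -/
noncomputable def qq (u : ℝ) : ℝ := √(Real.cosh (u / 2) ^ 2 + 1)

/-- the substitution -/
noncomputable def xx (u : ℝ) : ℝ := 1 / 2 + qq u * Real.sinh (u / 2) / (2 * Real.cosh (u / 2) ^ 2)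

/-- the density -/
noncomputable def wt (u : ℝ) : ℝ := 1 / (2 * Real.cosh (u / 2) ^ 3 * qq u)

lemma qq_sq (u : ℝ) : qq u ^ 2 = Real.cosh (u / 2) ^ 2 + 1 := by
  unfold qq
  exact Real.sq_sqrt (by positivity)

lemma qq_pos (u : ℝ) : 0 < qq u := Real.sqrt_pos.2 (by positivity)

lemma abs_sinh_lt_qq (u : ℝ) : |Real.sinh (u / 2)| < qq u := by
  unfold qq
  apply Real.lt_sqrt_of_sq_lt
  rw [sq_abs]
  have := Real.cosh_sq (u / 2)
  linarith

lemma xx_eq (u : ℝ) : xx u = ((qq u + Real.sinh (u / 2)) / (2 * Real.cosh (u / 2))) ^ 2 := by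
  have h1 := qq_sq u
  have h2 := Real.cosh_sq (u / 2)
  have h3 := Real.cosh_pos (u / 2)
  unfold xx
  rw [div_pow, add_sq, h1]
  field_simp
  nlinarith

lemma one_sub_xx_eq (u : ℝ) :
    1 - xx u = ((qq u - Real.sinh (u / 2)) / (2 * Real.cosh (u / 2))) ^ 2 := by
  have h1 := qq_sq u
  have h2 := Real.cosh_sq (u / 2)
  have h3 := Real.cosh_pos (u / 2)
  unfold xx
  rw [div_pow, sub_sq, h1]
  field_simp
  nlinarith

lemma xx_mem (u : ℝ) : xx u ∈ Set.Ioo (0 : ℝ) 1 := by
  have h1 := abs_lt.1 (abs_sinh_lt_qq u)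
  have h3 := Real.cosh_pos (u / 2)
  have h4 : 0 < xx u := by
    rw [xx_eq]
    have : 0 < qq u + Real.sinh (u / 2) := by linarith [h1.1]
    positivity
  have h5 : 0 < 1 - xx u := by
    rw [one_sub_xx_eq]
    have : 0 < qq u - Real.sinh (u / 2) := by linarith [h1.2]
    positivity
  exact ⟨h4, by linarith⟩

lemma rpow_neg_half_sq {y : ℝ} (hy : 0 < y) : (y ^ 2) ^ (-(1 / 2) : ℝ) = y⁻¹ := by
  rw [Real.rpow_neg (by positivity), ← Real.sqrt_eq_rpow, Real.sqrt_sq hy.le]

lemma gap_xx (u : ℝ) : gap (xx u) = Real.sinh u := by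
  have h1 := abs_lt.1 (abs_sinh_lt_qq u)
  have h3 := Real.cosh_pos (u / 2)
  have h4 : 0 < qq u + Real.sinh (u / 2) := by linarith [h1.1]
  have h5 : 0 < qq u - Real.sinh (u / 2) := by linarith [h1.2]
  unfold gap
  rw [one_sub_xx_eq, xx_eq, rpow_neg_half_sq (by positivity), rpow_neg_half_sq (by positivity),
    inv_div, inv_div]
  have h6 : Real.sinh u = 2 * Real.sinh (u / 2) * Real.cosh (u / 2) := by
    rw [← Real.sinh_two_mul]; congr 1; ring
  have h7 : (qq u - Real.sinh (u / 2)) * (qq u + Real.sinh (u / 2)) = 2 := by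
    have h8 := qq_sq u
    have h9 := Real.cosh_sq (u / 2)
    nlinarith
  rw [h6, div_sub_div _ _ h5.ne' h4.ne', h7]
  ring

lemma deriv_identity {κ q s : ℝ} (hκ : 0 < κ) (hq : 0 < q) (h1 : q ^ 2 = κ ^ 2 + 1)
    (h2 : κ ^ 2 = s ^ 2 + 1) :
    (((2 * κ ^ 1 * (s * (1 / 2)) / (2 * q)) * s + q * (κ * (1 / 2))) * (2 * κ ^ 2) -
      q * s * (2 * (2 * κ ^ 1 * (s * (1 / 2))))) / (2 * κ ^ 2) ^ 2 = 1 / (2 * κ ^ 3 * q) := by
  have e1 : (((2 * κ ^ 1 * (s * (1 / 2)) / (2 * q)) * s + q * (κ * (1 / 2))) * (2 * κ ^ 2) -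
      q * s * (2 * (2 * κ ^ 1 * (s * (1 / 2))))) / (2 * κ ^ 2) ^ 2 =
      ((s ^ 2 + q ^ 2) * κ ^ 2 - 2 * q ^ 2 * s ^ 2) / (4 * κ ^ 3 * q) := by
    field_simp
    ring
  have e2 : (s ^ 2 + q ^ 2) * κ ^ 2 - 2 * q ^ 2 * s ^ 2 = 2 := by
    have hs : s ^ 2 = κ ^ 2 - 1 := by linarith
    rw [h1, hs]; ring
  rw [e1, e2]
  field_simp
  norm_num

lemma hasDerivAt_xx (u : ℝ) : HasDerivAt xx (wt u) u := by
  have h3 := Real.cosh_pos (u / 2)
  have hq := qq_pos u
  have hhalf : HasDerivAt (fun u : ℝ => u / 2) (1 / 2) u := (hasDerivAt_id u).div_const 2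
  have hc : HasDerivAt (fun u : ℝ => Real.cosh (u / 2)) (Real.sinh (u / 2) * (1 / 2)) u :=
    hhalf.cosh
  have hs : HasDerivAt (fun u : ℝ => Real.sinh (u / 2)) (Real.cosh (u / 2) * (1 / 2)) u :=
    hhalf.sinh
  have hq1 : HasDerivAt (fun u : ℝ => Real.cosh (u / 2) ^ 2 + 1)
      (2 * Real.cosh (u / 2) ^ 1 * (Real.sinh (u / 2) * (1 / 2))) u := by
    have := (hc.pow 2).add_const 1
    exact_mod_cast this
  have hq2 : HasDerivAt qq (2 * Real.cosh (u / 2) ^ 1 * (Real.sinh (u / 2) * (1 / 2)) /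
      (2 * √(Real.cosh (u / 2) ^ 2 + 1))) u := hq1.sqrt (by positivity)
  have hd : HasDerivAt (fun u : ℝ => 2 * Real.cosh (u / 2) ^ 2)
      (2 * (2 * Real.cosh (u / 2) ^ 1 * (Real.sinh (u / 2) * (1 / 2)))) u := by
    have := (hc.pow 2).const_mul 2
    exact_mod_cast this
  have hx : HasDerivAt xx _ u := ((hq2.mul hs).div hd (by positivity)).const_add (1 / 2)
  refine hx.congr_deriv ?_
  exact deriv_identity h3 hq (qq_sq u) (Real.cosh_sq (u / 2))

lemma gap_strictMonoOn : StrictMonoOn gap (Set.Ioo (0 : ℝ) 1) := by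
  intro x hx y hy hxy
  unfold gap
  have h1 : (1 - x) ^ (-(1 / 2) : ℝ) < (1 - y) ^ (-(1 / 2) : ℝ) :=
    Real.rpow_lt_rpow_of_neg (by linarith [hy.2]) (by linarith) (by norm_num)
  have h2 : y ^ (-(1 / 2) : ℝ) < x ^ (-(1 / 2) : ℝ) :=
    Real.rpow_lt_rpow_of_neg hx.1 hxy (by norm_num)
  linarith

lemma xx_injective : Function.Injective xx := by
  intro u v h
  have := congrArg gap h
  rw [gap_xx, gap_xx] at this
  exact Real.sinh_injective this

lemma xx_image : xx '' Set.univ = Set.Ioo (0 : ℝ) 1 := by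
  ext y
  simp only [Set.mem_image, Set.mem_univ, true_and]
  constructor
  · rintro ⟨u, rfl⟩
    exact xx_mem u
  · intro hy
    refine ⟨Real.arsinh (gap y), ?_⟩
    apply gap_strictMonoOn.injOn (xx_mem _) hy
    rw [gap_xx, Real.sinh_arsinh]

lemma wt_pos (u : ℝ) : 0 < wt u := by
  have h3 := Real.cosh_pos (u / 2)
  have hq := qq_pos u
  unfold wt
  positivity

lemma wt_neg (u : ℝ) : wt (-u) = wt u := by
  unfold wt qq
  rw [neg_div, Real.cosh_neg]

lemma qq_continuous : Continuous qq := by unfold qq; fun_prop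

lemma wt_continuous : Continuous wt := by
  unfold wt
  have := qq_continuous
  refine Continuous.div (by fun_prop) (by fun_prop) fun u => ?_
  have h3 := Real.cosh_pos (u / 2)
  have hq := qq_pos u
  positivity

lemma integral_gap {F : Type*} [NormedAddCommGroup F] [NormedSpace ℝ F] (h : ℝ → F) :
    ∫ x in Set.Ioo (0 : ℝ) 1, h (gap x) = ∫ u : ℝ, wt u • h (Real.sinh u) := by
  have h1 := integral_image_eq_integral_abs_deriv_smul (s := Set.univ) (f := xx) (f' := wt)
    MeasurableSet.univ (fun u _ => (hasDerivAt_xx u).hasDerivWithinAt) xx_injective.injOn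
    (fun x => h (gap x))
  rw [xx_image] at h1
  rw [h1, Measure.restrict_univ]
  refine integral_congr_ae (Filter.Eventually.of_forall fun u => ?_)
  simp only [gap_xx, abs_of_pos (wt_pos u)]

lemma gap_measurable : Measurable gap := by
  unfold gap
  fun_prop

instance : IsProbabilityMeasure Dbar := by
  unfold Dbar
  have : IsProbabilityMeasure ((volume : Measure ℝ).restrict (Set.Ioo (0 : ℝ) 1)) :=
    ⟨by rw [Measure.restrict_apply_univ, Real.volume_Ioo]; simp⟩
  exact Measure.isProbabilityMeasure_map gap_measurable.aemeasurable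

lemma cosh_half_sq (u : ℝ) : Real.cosh (u / 2) ^ 2 = (Real.cosh u + 1) / 2 := by
  have h2 := Real.cosh_two_mul (u / 2)
  rw [mul_div_cancel₀ u (two_ne_zero' ℝ)] at h2
  have h3 := Real.cosh_sq (u / 2)
  rw [h2]; linarith

lemma inv_kap_sq_le (u : ℝ) : (Real.cosh (u / 2) ^ 2)⁻¹ ≤ 1 / (1 + (u / 2) ^ 2) := by
  rw [cosh_half_sq, ← one_div]
  apply one_div_le_one_div_of_le (by positivity)
  have := one_add_sq_le_cosh u
  nlinarith

lemma wt_mul_sinh_le (u : ℝ) : |wt u * Real.sinh u| ≤ (Real.cosh (u / 2) ^ 2)⁻¹ := by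
  have h3 := Real.cosh_pos (u / 2)
  have hq := qq_pos u
  have h6 : Real.sinh u = 2 * Real.sinh (u / 2) * Real.cosh (u / 2) := by
    rw [← Real.sinh_two_mul]; congr 1; ring
  have h7 : wt u * Real.sinh u = Real.sinh (u / 2) / qq u * (Real.cosh (u / 2) ^ 2)⁻¹ := by
    rw [h6]
    unfold wt
    field_simp
  have h8 : |Real.sinh (u / 2) / qq u| ≤ 1 := by
    rw [abs_div, abs_of_pos hq, div_le_one hq]
    exact (abs_sinh_lt_qq u).le
  have h9 : 0 ≤ (Real.cosh (u / 2) ^ 2)⁻¹ := by positivity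
  rw [h7, abs_mul, abs_of_nonneg h9]
  exact mul_le_of_le_one_left h9 h8

lemma wt_le (u : ℝ) : wt u ≤ (Real.cosh (u / 2) ^ 2)⁻¹ := by
  have h3 := Real.one_le_cosh (u / 2)
  have hq : 1 ≤ qq u := by
    unfold qq
    rw [Real.one_le_sqrt]
    nlinarith
  unfold wt
  rw [← one_div]
  apply one_div_le_one_div_of_le (by positivity)
  have h4 : Real.cosh (u / 2) ^ 2 ≤ Real.cosh (u / 2) ^ 3 :=
    pow_le_pow_right₀ h3 (by norm_num)
  have h5 : 0 ≤ Real.cosh (u / 2) ^ 3 := by positivity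
  nlinarith

lemma integrable_bound : Integrable fun u : ℝ => 1 / (1 + (u / 2) ^ 2) := by
  have h1 := integrable_inv_one_add_sq.comp_div (R := (2 : ℝ)) (by norm_num)
  simpa [one_div] using h1

lemma integrable_inv_kap_sq : Integrable fun u : ℝ => (Real.cosh (u / 2) ^ 2)⁻¹ := by
  refine integrable_bound.mono' ?_ (Filter.Eventually.of_forall fun u => ?_)
  · have : Continuous fun u : ℝ => (Real.cosh (u / 2) ^ 2)⁻¹ :=
      Continuous.inv₀ (by fun_prop) fun u => by have := Real.cosh_pos (u / 2); positivity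
    exact this.aestronglyMeasurable
  · rw [Real.norm_eq_abs, abs_of_nonneg (by positivity)]
    exact inv_kap_sq_le u

lemma wt_integrable : Integrable wt := by
  refine integrable_inv_kap_sq.mono' wt_continuous.aestronglyMeasurable
    (Filter.Eventually.of_forall fun u => ?_)
  rw [Real.norm_eq_abs, abs_of_pos (wt_pos u)]
  exact wt_le u

lemma wt_sinh_integrable : Integrable fun u => wt u * Real.sinh u := by
  refine integrable_inv_kap_sq.mono' ?_ (Filter.Eventually.of_forall fun u => wt_mul_sinh_le u)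
  exact (wt_continuous.mul Real.continuous_sinh).aestronglyMeasurable

/-- the characteristic function of `D̄` -/
noncomputable def gg (t : ℝ) : ℝ := ∫ u : ℝ, wt u * Real.cos (t * Real.sinh u)

lemma charFun_Dbar' (t : ℝ) : charFun Dbar t =
    ∫ u : ℝ, (wt u : ℂ) * cexp (t * Real.sinh u * I) := by
  rw [charFun_apply_real]
  unfold Dbar
  rw [integral_map gap_measurable.aemeasurable (by fun_prop)]
  rw [integral_gap (fun y : ℝ => cexp (t * y * I))]
  rfl

lemma integrable_wt_cos (t : ℝ) : Integrable fun u => wt u * Real.cos (t * Real.sinh u) := by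
  refine wt_integrable.mono' ?_ (Filter.Eventually.of_forall fun u => ?_)
  · have := wt_continuous
    exact Continuous.aestronglyMeasurable (by fun_prop)
  · rw [Real.norm_eq_abs, abs_mul, abs_of_pos (wt_pos u)]
    exact mul_le_of_le_one_right (wt_pos u).le (Real.abs_cos_le_one _)

lemma integrable_wt_sin (t : ℝ) : Integrable fun u => wt u * Real.sin (t * Real.sinh u) := by
  refine wt_integrable.mono' ?_ (Filter.Eventually.of_forall fun u => ?_)
  · have := wt_continuous
    exact Continuous.aestronglyMeasurable (by fun_prop)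
  · rw [Real.norm_eq_abs, abs_mul, abs_of_pos (wt_pos u)]
    exact mul_le_of_le_one_right (wt_pos u).le (Real.abs_sin_le_one _)

lemma integral_wt_sin (t : ℝ) : ∫ u, wt u * Real.sin (t * Real.sinh u) = 0 := by
  have h1 := integral_neg_eq_self (fun u => wt u * Real.sin (t * Real.sinh u)) volume
  have h2 : ∀ u : ℝ, wt (-u) * Real.sin (t * Real.sinh (-u)) =
      -(wt u * Real.sin (t * Real.sinh u)) := by
    intro u
    rw [wt_neg, Real.sinh_neg, mul_neg, Real.sin_neg, mul_neg]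
  simp_rw [h2, integral_neg] at h1
  linarith

lemma charFun_Dbar (t : ℝ) : charFun Dbar t = (gg t : ℂ) := by
  rw [charFun_Dbar']
  have h1 : ∀ u : ℝ, (wt u : ℂ) * cexp (t * Real.sinh u * I) =
      ((wt u * Real.cos (t * Real.sinh u) : ℝ) : ℂ) +
      ((wt u * Real.sin (t * Real.sinh u) : ℝ) : ℂ) * I := by
    intro u
    have h2 : (t : ℂ) * Real.sinh u * I = ((t * Real.sinh u : ℝ) : ℂ) * I := by push_cast; ring
    rw [h2, Complex.exp_mul_I, ← Complex.ofReal_cos, ← Complex.ofReal_sin]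
    push_cast
    ring
  have hi1 : Integrable fun u => ((wt u * Real.cos (t * Real.sinh u) : ℝ) : ℂ) :=
    (integrable_wt_cos t).ofReal
  have hi2 : Integrable fun u => ((wt u * Real.sin (t * Real.sinh u) : ℝ) : ℂ) * I :=
    Integrable.mul_const (integrable_wt_sin t).ofReal I
  simp_rw [h1]
  rw [integral_add hi1 hi2,
    integral_mul_const, integral_complex_ofReal, integral_complex_ofReal, integral_wt_sin]
  simp [gg]

lemma gg_zero : gg 0 = 1 := by
  have h1 := charFun_Dbar 0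
  rw [charFun_zero] at h1
  have : (Dbar.real Set.univ : ℂ) = 1 := by simp
  rw [this] at h1
  exact_mod_cast h1.symm

lemma gg_even (t : ℝ) : gg (-t) = gg t := by
  unfold gg
  congr 1
  ext u
  rw [neg_mul, Real.cos_neg]

lemma gg_lip (s t : ℝ) : |gg t - gg s| ≤ (∫ u, |wt u * Real.sinh u|) * |t - s| := by
  unfold gg
  rw [← integral_sub (integrable_wt_cos t) (integrable_wt_cos s), ← integral_mul_const]
  refine (abs_integral_le_integral_abs).trans ?_
  refine integral_mono ((integrable_wt_cos t).sub (integrable_wt_cos s)).abs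
    (wt_sinh_integrable.abs.mul_const _) fun u => ?_
  simp only
  rw [← mul_sub, abs_mul, abs_mul, abs_of_pos (wt_pos u), mul_assoc]
  apply mul_le_mul_of_nonneg_left _ (wt_pos u).le
  have h1 : |Real.cos (t * Real.sinh u) - Real.cos (s * Real.sinh u)| ≤
      |t * Real.sinh u - s * Real.sinh u| := Real.abs_cos_sub_cos_le _ _
  refine h1.trans ?_
  rw [← sub_mul, abs_mul, mul_comm]

end Pool.Agent.Helper95.Tsallis
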