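import Mathlib
import Pool.Agent.Helper95.Tsallis.Defs
import Pool.Agent.Helper95.Tsallis.Subst

/-!
# The main theorem
-/

set_option autoImplicit false

open MeasureTheory ProbabilityTheory Filter Topology Complex
open scoped ENNReal NNReal Real

namespace Pool.Agent.Helper95.Tsallis

/-- the contour integrand -/
noncomputable def SS (t : ℝ) (z : ℂ) : ℂ :=
  cexp (t * Complex.sinh z * I) *
    (2 * ((√2 : ℝ) * Complex.cosh (z / 2))⁻¹ ^ 3 * EE (3 + Complex.cosh z) / (√π : ℝ))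

lemma SS_real (t u : ℝ) : SS t u = (wt u : ℂ) * cexp (t * Real.sinh u * I) := by
  unfold SS
  have h0 : (3 + Complex.cosh (u : ℂ)) = ((2 * qq u ^ 2 : ℝ) : ℂ) := by
    rw [qq_sq, cosh_half_sq, ← Complex.ofReal_cosh]; push_cast; ring
  have hq := qq_pos u
  have hc := Real.cosh_pos (u / 2)
  have hπ : 0 < √π := Real.sqrt_pos.2 Real.pi_pos
  have h2 : 0 < √(2 : ℝ) := Real.sqrt_pos.2 (by norm_num)
  have h1 : √(π / (2 * qq u ^ 2)) = √π / (√2 * qq u) := by
    rw [Real.sqrt_div Real.pi_pos.le, Real.sqrt_mul (by norm_num), Real.sqrt_sq hq.le]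
  have h3 : Complex.cosh ((u : ℂ) / 2) = (Real.cosh (u / 2) : ℂ) := by push_cast; rfl
  rw [h0, EE_real (by positivity), h1, h3, ← Complex.ofReal_sinh, mul_comm]
  congr 1
  rw [← Complex.ofReal_mul, ← Complex.ofReal_inv, ← Complex.ofReal_pow]
  have h4 : (2 : ℂ) = ((2 : ℝ) : ℂ) := by norm_num
  rw [h4, ← Complex.ofReal_mul, ← Complex.ofReal_mul, ← Complex.ofReal_div]
  congr 1
  unfold wt
  have h5 : √(2 : ℝ) ^ 2 = 2 := Real.sq_sqrt (by norm_num)
  have h6 : √(2 : ℝ) ^ 4 = 4 := by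
    have : √(2 : ℝ) ^ 4 = (√(2 : ℝ) ^ 2) ^ 2 := by ring
    rw [this, h5]; norm_num
  field_simp
  nlinarith

lemma cosh_im_re (x y : ℝ) : (Complex.cosh (x + y * I)).re = Real.cosh x * Real.cos y := by
  rw [Complex.cosh_add, Complex.cosh_mul_I, Complex.sinh_mul_I, ← Complex.ofReal_cosh,
    ← Complex.ofReal_sinh, ← Complex.ofReal_cos, ← Complex.ofReal_sin]
  simp only [add_re, mul_re, ofReal_re, ofReal_im, I_re, I_im, mul_im, mul_zero, mul_one,
    zero_mul, sub_zero, add_zero, zero_add]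

lemma norm_cosh_half_sq (x y : ℝ) : ‖(√2 : ℝ) * Complex.cosh ((x + y * I) / 2)‖ ^ 2 =
    Real.cosh x + Real.cos y := by
  have h1 : ((x : ℂ) + y * I) / 2 = ((x / 2 : ℝ) : ℂ) + ((y / 2 : ℝ) : ℂ) * I := by
    push_cast; ring
  rw [h1, Complex.cosh_add, Complex.cosh_mul_I, Complex.sinh_mul_I, ← Complex.ofReal_cosh,
    ← Complex.ofReal_sinh, ← Complex.ofReal_cos, ← Complex.ofReal_sin,
    ← Complex.normSq_eq_norm_sq, Complex.normSq_apply]
  simp only [add_re, add_im, mul_re, mul_im, ofReal_re, ofReal_im, I_re, I_im, mul_zero, mul_one,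
    zero_mul, sub_zero, add_zero, zero_add]
  have h5 : √(2 : ℝ) * √2 = 2 := Real.mul_self_sqrt (by norm_num)
  have h2 := cosh_half_sq x
  have h3 := Real.cosh_sq (x / 2)
  have h4 := Real.cos_sq_add_sin_sq (y / 2)
  have h6 : Real.cos y = 2 * Real.cos (y / 2) ^ 2 - 1 := by
    rw [← Real.cos_two_mul]; congr 1; ring
  have h7 : Real.cosh x = 2 * Real.cosh (x / 2) ^ 2 - 1 := by rw [h2]; ring
  have h8 : Real.sinh (x / 2) ^ 2 = Real.cosh (x / 2) ^ 2 - 1 := by linarith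
  have h9 : Real.sin (y / 2) ^ 2 = 1 - Real.cos (y / 2) ^ 2 := by linarith
  have h10 : √2 * (Real.cosh (x / 2) * Real.cos (y / 2)) *
      (√2 * (Real.cosh (x / 2) * Real.cos (y / 2))) +
      √2 * (Real.sinh (x / 2) * Real.sin (y / 2)) *
      (√2 * (Real.sinh (x / 2) * Real.sin (y / 2))) =
      (√2 * √2) * (Real.cosh (x / 2) ^ 2 * Real.cos (y / 2) ^ 2 +
      Real.sinh (x / 2) ^ 2 * Real.sin (y / 2) ^ 2) := by ring
  rw [h6, h7, h10, h5, h8, h9]
  ring

lemma EE_arg_re {x y : ℝ} (hy0 : 0 ≤ y) (hy1 : y ≤ π / 2) :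
    3 ≤ (3 + Complex.cosh (x + y * I)).re := by
  rw [Complex.add_re, cosh_im_re]
  have h1 := Real.cosh_pos x
  have h2 : 0 ≤ Real.cos y := Real.cos_nonneg_of_mem_Icc ⟨by linarith [Real.pi_pos], hy1⟩
  have : (3 : ℂ).re = 3 := by simp
  rw [this]
  have := mul_nonneg h1.le h2
  linarith

lemma norm_SS_le {t : ℝ} (ht : 0 ≤ t) {x y : ℝ} (hy0 : 0 ≤ y) (hy1 : y ≤ π / 2) :
    ‖SS t (x + y * I)‖ ≤ 2 / (1 + x ^ 2 / 2) := by
  have hπ : 0 < √π := Real.sqrt_pos.2 Real.pi_pos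
  have h2 : 0 ≤ Real.cos y := Real.cos_nonneg_of_mem_Icc ⟨by linarith [Real.pi_pos], hy1⟩
  have h3 : 0 ≤ Real.sin y := Real.sin_nonneg_of_nonneg_of_le_pi hy0 (by linarith [Real.pi_pos])
  have hc := Real.cosh_pos x
  have e1 : ‖cexp (t * Complex.sinh (x + y * I) * I)‖ ≤ 1 := by
    rw [Complex.norm_exp]
    have h4 : ((t : ℂ) * Complex.sinh (x + y * I) * I).re = -(t * (Real.cosh x * Real.sin y)) := by
      rw [Complex.sinh_add, Complex.cosh_mul_I, Complex.sinh_mul_I, ← Complex.ofReal_cosh,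
        ← Complex.ofReal_sinh, ← Complex.ofReal_cos, ← Complex.ofReal_sin]
      simp only [add_re, mul_re, ofReal_re, ofReal_im, I_re, I_im, mul_im, mul_zero, mul_one,
        zero_mul, sub_zero, add_zero, zero_add, add_im, zero_sub]
    rw [h4]
    apply Real.exp_le_one_iff.2
    have := mul_nonneg ht (mul_nonneg hc.le h3)
    linarith
  have e2 : ‖EE (3 + Complex.cosh (x + y * I))‖ ≤ √π :=
    norm_EE_le (by linarith [EE_arg_re (x := x) hy0 hy1])
  have e3 := norm_cosh_half_sq x y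
  set N := ‖(√2 : ℝ) * Complex.cosh ((x + y * I) / 2)‖ with hN
  have hc1 := Real.one_le_cosh x
  have hN0 : 0 ≤ N := norm_nonneg _
  have hN1 : 1 ≤ N := by
    by_contra h
    push Not at h
    nlinarith
  have e4 : N⁻¹ ^ 3 ≤ 1 / (1 + x ^ 2 / 2) := by
    rw [inv_pow, ← one_div]
    apply one_div_le_one_div_of_le (by positivity)
    have h5 := one_add_sq_le_cosh x
    have h6 : N ^ 2 ≤ N ^ 3 := pow_le_pow_right₀ hN1 (by norm_num)
    linarith
  unfold SS
  rw [norm_mul, norm_div, norm_mul, norm_mul, norm_pow, norm_inv, Complex.norm_real,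
    Real.norm_eq_abs, abs_of_nonneg hπ.le, ← hN]
  have h7 : ‖(2 : ℂ)‖ = 2 := by simp
  rw [h7]
  have e5 : 2 * N⁻¹ ^ 3 * ‖EE (3 + Complex.cosh (x + y * I))‖ / √π ≤ 2 / (1 + x ^ 2 / 2) := by
    rw [div_le_iff₀ hπ]
    calc 2 * N⁻¹ ^ 3 * ‖EE (3 + Complex.cosh (x + y * I))‖
        ≤ 2 * N⁻¹ ^ 3 * √π := mul_le_mul_of_nonneg_left e2 (by positivity)
      _ ≤ 2 * (1 / (1 + x ^ 2 / 2)) * √π := by gcongr
      _ = 2 / (1 + x ^ 2 / 2) * √π := by ring
  calc _ ≤ 1 * (2 * N⁻¹ ^ 3 * ‖EE (3 + Complex.cosh (x + y * I))‖ / √π) :=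
        mul_le_mul_of_nonneg_right e1 (by positivity)
    _ ≤ _ := by rw [one_mul]; exact e5

lemma SS_diff (t : ℝ) {x y : ℝ} (hy0 : 0 ≤ y) (hy1 : y ≤ π / 2) :
    DifferentiableAt ℂ (SS t) (x + y * I) := by
  unfold SS
  have h1 : DifferentiableAt ℂ (fun z => EE (3 + Complex.cosh z)) (x + y * I) := by
    refine DifferentiableAt.comp (g := EE) (f := fun z => 3 + Complex.cosh z) _
      (EE_differentiableAt (by linarith [EE_arg_re (x := x) hy0 hy1])) (by fun_prop)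
  have h3 := norm_cosh_half_sq x y
  have h2 : 0 ≤ Real.cos y := Real.cos_nonneg_of_mem_Icc ⟨by linarith [Real.pi_pos], hy1⟩
  have hc := Real.cosh_pos x
  have h4 : ((√2 : ℝ) : ℂ) * Complex.cosh ((x + y * I) / 2) ≠ 0 := by
    intro h
    rw [h, norm_zero] at h3
    simp at h3
    linarith
  have h5 : DifferentiableAt ℂ (fun z => (((√2 : ℝ) : ℂ) * Complex.cosh (z / 2))⁻¹)
      (x + y * I) := by
    refine DifferentiableAt.inv (by fun_prop) h4
  fun_prop

lemma SS_shift (t v : ℝ) : SS t (v + (π / 2 : ℝ) * I) = cexp (-((t : ℂ) * Real.cosh v)) * psi v := by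
  have h1 : Complex.cosh ((v : ℂ) + (π / 2 : ℝ) * I) = Real.sinh v * I := by
    rw [Complex.cosh_add, Complex.cosh_mul_I, Complex.sinh_mul_I, ← Complex.ofReal_cosh,
      ← Complex.ofReal_sinh, ← Complex.ofReal_cos, ← Complex.ofReal_sin, Real.cos_pi_div_two,
      Real.sin_pi_div_two]
    simp
  have h2 : Complex.sinh ((v : ℂ) + (π / 2 : ℝ) * I) = Real.cosh v * I := by
    rw [Complex.sinh_add, Complex.cosh_mul_I, Complex.sinh_mul_I, ← Complex.ofReal_cosh,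
      ← Complex.ofReal_sinh, ← Complex.ofReal_cos, ← Complex.ofReal_sin, Real.cos_pi_div_two,
      Real.sin_pi_div_two]
    simp
  have h3 : ((√2 : ℝ) : ℂ) * Complex.cosh (((v : ℂ) + (π / 2 : ℝ) * I) / 2) = uu v := by
    have h4 : ((v : ℂ) + (π / 2 : ℝ) * I) / 2 = ((v / 2 : ℝ) : ℂ) + ((π / 4 : ℝ) : ℂ) * I := by
      push_cast; ring
    rw [h4, Complex.cosh_add, Complex.cosh_mul_I, Complex.sinh_mul_I, ← Complex.ofReal_cosh,
      ← Complex.ofReal_sinh, ← Complex.ofReal_cos, ← Complex.ofReal_sin, Real.cos_pi_div_four,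
      Real.sin_pi_div_four]
    have h5 : ((√2 : ℝ) : ℂ) * ((√2 : ℝ) : ℂ) = 2 := by
      rw [← Complex.ofReal_mul, Real.mul_self_sqrt (by norm_num)]; norm_num
    unfold uu
    push_cast
    linear_combination ((Complex.cosh (v / 2) + Complex.sinh (v / 2) * I) / 2) * h5
  unfold SS psi
  rw [h1, h2, h3]
  congr 2
  rw [mul_assoc, mul_assoc, I_mul_I]
  ring

lemma tendsto_bound_atTop : Tendsto (fun x : ℝ => 2 / (1 + x ^ 2 / 2)) atTop (𝓝 0) := by
  refine Tendsto.div_atTop tendsto_const_nhds ?_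
  refine tendsto_atTop_mono (fun x => (show x ≤ 1 + x ^ 2 / 2 from ?_)) tendsto_id
  nlinarith [sq_nonneg (x - 1)]

lemma gg_eq_GG {t : ℝ} (ht : 0 < t) : GG t = (gg t : ℂ) := by
  rw [← charFun_Dbar, charFun_Dbar']
  simp_rw [← SS_real]
  have hu : Set.uIcc 0 (π / 2) = Set.Icc 0 (π / 2) := Set.uIcc_of_le (by positivity)
  have h1 := contour_shift (SS t) (π / 2) (fun x => 2 / (1 + x ^ 2 / 2))
    (fun x y hy => by rw [hu] at hy; exact SS_diff t hy.1 hy.2)
    (fun x y hy => by rw [hu] at hy; exact norm_SS_le ht.le hy.1 hy.2) ?_ ?_ ?_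
  · rw [h1]
    simp_rw [SS_shift]
    rfl
  · have h2 : Integrable fun x : ℝ => 2 * (1 + (x / √2) ^ 2)⁻¹ :=
      (integrable_inv_one_add_sq.comp_div (R := √2) (by positivity)).const_mul 2
    refine h2.congr (Filter.Eventually.of_forall fun x => ?_)
    simp only
    rw [div_pow, Real.sq_sqrt (by norm_num)]
    exact (div_eq_mul_inv _ _).symm
  · exact tendsto_bound_atTop
  · have := tendsto_bound_atTop.comp tendsto_neg_atBot_atTop
    refine this.congr fun x => ?_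
    simp only [Function.comp, neg_sq]

lemma hdata : HData GG gg (∫ u, |wt u * Real.sinh u|) where
  diff := GG_diffOn
  real := fun _ hx => gg_eq_GG hx
  anti := GG_anti
  even := gg_even
  zero := gg_zero
  lip := gg_lip

/-- all nonnegative powers of the characteristic function of `D̄` are characteristic functions. -/
theorem isChf_gg_rpow {c : ℝ} (hc : 0 ≤ c) : IsChf (fun t => gg t ^ c) := hdata.isChf_rpow hc

lemma map_sub_eq {μ : Measure ℝ} [IsProbabilityMeasure μ]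
    (h1 : ∀ t, charFun μ t = ((gg t ^ (1 / 2 : ℝ) : ℝ) : ℂ)) :
    (μ.prod μ).map (fun p : ℝ × ℝ => p.2 - p.1) = Dbar := by
  have : IsProbabilityMeasure ((μ.prod μ).map (fun p : ℝ × ℝ => p.2 - p.1)) :=
    Measure.isProbabilityMeasure_map (by fun_prop)
  apply Measure.ext_of_charFun
  ext t
  rw [charFun_Dbar, charFun_apply_real, integral_map (by fun_prop) (by fun_prop)]
  have h2 : ∀ p : ℝ × ℝ, cexp (t * ((p.2 - p.1 : ℝ) : ℂ) * I) =
      cexp ((-t : ℝ) * (p.1 : ℂ) * I) * cexp (t * (p.2 : ℂ) * I) := by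
    intro p
    rw [← Complex.exp_add]
    congr 1
    push_cast
    ring
  simp_rw [h2]
  rw [integral_prod_mul (fun x : ℝ => cexp ((-t : ℝ) * (x : ℂ) * I))
    (fun x : ℝ => cexp (t * (x : ℂ) * I)), ← charFun_apply_real, ← charFun_apply_real, h1, h1,
    gg_even, ← Complex.ofReal_mul]
  congr 1
  rw [← Real.rpow_add (hdata.g_pos' t)]
  norm_num

lemma map_neg_eq {μ : Measure ℝ} [IsProbabilityMeasure μ]
    (h1 : ∀ t, charFun μ t = ((gg t ^ (1 / 2 : ℝ) : ℝ) : ℂ)) :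
    μ.map (fun r : ℝ => -r) = μ := by
  have : IsProbabilityMeasure (μ.map (fun r : ℝ => -r)) :=
    Measure.isProbabilityMeasure_map (by fun_prop)
  apply Measure.ext_of_charFun
  ext t
  rw [charFun_apply_real, integral_map (by fun_prop) (by fun_prop)]
  have h2 : ∀ x : ℝ, cexp (t * ((-x : ℝ) : ℂ) * I) = cexp ((-t : ℝ) * (x : ℂ) * I) := by
    intro x
    congr 1
    push_cast
    ring
  simp_rw [h2]
  rw [← charFun_apply_real, h1, h1, gg_even]

lemma Dbar_Iic {x : ℝ} (hx : x ∈ Set.Ioo (0 : ℝ) 1) : Dbar (Set.Iic (gap x)) = ENNReal.ofReal x := by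
  unfold Dbar
  rw [Measure.map_apply gap_measurable measurableSet_Iic,
    Measure.restrict_apply (gap_measurable measurableSet_Iic)]
  have h1 : gap ⁻¹' Set.Iic (gap x) ∩ Set.Ioo (0 : ℝ) 1 = Set.Ioc 0 x := by
    ext y
    simp only [Set.mem_inter_iff, Set.mem_preimage, Set.mem_Iic, Set.mem_Ioc]
    constructor
    · rintro ⟨h1, h2⟩
      exact ⟨h2.1, (gap_strictMonoOn.le_iff_le h2 hx).1 h1⟩
    · rintro ⟨h1, h2⟩
      have h3 : y ∈ Set.Ioo (0 : ℝ) 1 := ⟨h1, h2.trans_lt hx.2⟩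
      exact ⟨(gap_strictMonoOn.le_iff_le h3 hx).2 h2, h3⟩
  rw [h1, Real.volume_Ioc, sub_zero]

theorem main : ∃ μ : Measure ℝ, IsProbabilityMeasure μ ∧ μ.map (fun r : ℝ => -r) = μ ∧
    (μ.prod μ).map (fun p : ℝ × ℝ => p.2 - p.1) = Dbar ∧
    ∀ x ∈ Set.Ioo (0 : ℝ) 1, (μ.prod μ) {p : ℝ × ℝ | p.2 ≤ gap x + p.1} = ENNReal.ofReal x := by
  obtain ⟨μ, hμ, h1⟩ := isChf_gg_rpow (c := 1 / 2) (by norm_num)
  have h2 := map_sub_eq h1
  refine ⟨μ, hμ, map_neg_eq h1, h2, fun x hx => ?_⟩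
  rw [← Dbar_Iic hx, ← h2, Measure.map_apply (by fun_prop) measurableSet_Iic]
  congr 1
  ext p
  simp only [Set.mem_preimage, Set.mem_Iic]
  exact ⟨fun h => by have : p.2 ≤ gap x + p.1 := h; linarith, fun h => (show p.2 ≤ gap x + p.1 by linarith)⟩

/-- `D̄` is infinitely divisible. -/
theorem infdiv (n : ℕ) (hn : 0 < n) : ∃ ν : Measure ℝ, IsProbabilityMeasure ν ∧
    ∀ t, charFun ν t ^ n = charFun Dbar t := by
  obtain ⟨ν, hν, h1⟩ := isChf_gg_rpow (c := 1 / n) (by positivity)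
  refine ⟨ν, hν, fun t => ?_⟩
  have hn' : (n : ℝ) ≠ 0 := by positivity
  rw [h1, charFun_Dbar, ← Complex.ofReal_pow, ← Real.rpow_natCast, ← Real.rpow_mul
    (hdata.g_pos' t).le, one_div, inv_mul_cancel₀ hn', Real.rpow_one]

end Pool.Agent.Helper95.Tsallis
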